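import Mathlib

open scoped ENNReal BigOperators
open RCLike

namespace Pool.Agent.Helper893.V

section Comb

variable {𝕜 : Type*} [RCLike 𝕜] {E : Type*} [NormedAddCommGroup E] [NormedSpace 𝕜 E]
variable {J Γ : Type*}

theorem sum_norm_le_norm_one (u : lp (fun _ : J => E) 1) (G : Finset J) :
    ∑ j ∈ G, ‖u j‖ ≤ ‖u‖ := by
  have h := lp.sum_rpow_le_norm_rpow (p := (1 : ℝ≥0∞)) (by simp) u G
  simpa using h

theorem comb_step [DecidableEq J] [DecidableEq Γ]
    (S : J → Set Γ) (A : Set Γ) (i : J) (φ : Γ → (E →L[𝕜] 𝕜))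
    (s : Γ → lp (fun _ : J => E) 1)
    (hsum : ∀ γ ∈ A, HasSum (fun j => φ γ (s γ j)) 1)
    (hzero : ∀ γ ∈ A, ∀ j, γ ∉ S j → φ γ (s γ j) = 0)
    (hi : ∀ γ ∈ A, s γ i = 0)
    (h2 : ∀ G : Finset J, i ∉ G → ∀ K : Finset Γ, ∃ γ ∈ A, γ ∉ K ∧ ∀ j ∈ G, γ ∉ S j)
    (n : ℕ) :
    ∃ (K : Finset Γ) (θ : Γ → ℝ) (G : Finset J) (ξ : J → Γ) (η : J → ℝ),
      (↑K ⊆ A) ∧ K.card = n ∧ (∀ γ, |θ γ| = 1) ∧ i ∉ G ∧ (∀ j, |η j| ≤ 1) ∧
      (n : ℝ) / 2 ≤ ∑ j ∈ G, η j * re (φ (ξ j) ((∑ γ ∈ K, (θ γ : 𝕜) • s γ : lp (fun _ : J => E) 1) j)) := by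
  induction n with
  | zero =>
    obtain ⟨γ₀, -, -, -⟩ := h2 ∅ (by simp) ∅
    refine ⟨∅, fun _ => 1, ∅, fun _ => γ₀, fun _ => 0, by simp, by simp, by simp, by simp, by simp, by simp⟩
  | succ n ih =>
    obtain ⟨K, θ, G, ξ, η, hKA, hKn, hθ, hiG, hη, hmain⟩ := ih
    obtain ⟨γ, hγA, hγK, hγG⟩ := h2 G hiG K
    set u : lp (fun _ : J => E) 1 := ∑ γ ∈ K, (θ γ : 𝕜) • s γ with hu
    -- finite set carrying the mass of `s γ`
    have hre : HasSum (fun j => re (φ γ (s γ j))) 1 := by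
      have := (hsum γ hγA).mapL (RCLike.reCLM (K := 𝕜))
      simpa using this
    have hev : ∀ᶠ G₁ : Finset J in Filter.atTop, (1 : ℝ) / 2 < ∑ j ∈ G₁, re (φ γ (s γ j)) :=
      hre.eventually (lt_mem_nhds (by norm_num))
    obtain ⟨G₁, hG₁, hG₁G⟩ := (hev.and (Filter.eventually_ge_atTop G)).exists
    set G' : Finset J := (G₁ \ G).erase i with hG'
    have hdisj : Disjoint G G' := by
      rw [Finset.disjoint_left]
      intro j hj hj'
      simp [hG', hj] at hj'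
    have hG'sum : (1 : ℝ) / 2 ≤ ∑ j ∈ G', re (φ γ (s γ j)) := by
      have h1 : ∑ j ∈ G', re (φ γ (s γ j)) = ∑ j ∈ G₁, re (φ γ (s γ j)) := by
        apply Finset.sum_subset
        · intro j hj
          simp only [hG', Finset.mem_erase, Finset.mem_sdiff] at hj
          exact hj.2.1
        · intro j hj hj'
          simp only [hG', Finset.mem_erase, Finset.mem_sdiff, not_and, not_not] at hj'
          by_cases hji : j = i
          · subst hji
            rw [hi γ hγA]; simp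
          · have := hj' hji hj
            rw [hzero γ hγA j (hγG j this)]; simp
      rw [h1]; exact hG₁.le
    set a : ℝ := ∑ j ∈ G, η j * re (φ (ξ j) (s γ j)) + ∑ j ∈ G', re (φ γ (u j)) with ha
    obtain ⟨t, ht, hta⟩ : ∃ t : ℝ, |t| = 1 ∧ 0 ≤ t * a := by
      by_cases h : 0 ≤ a
      · exact ⟨1, by simp, by simpa using h⟩
      · exact ⟨-1, by simp, by linarith⟩
    have htt : t * t = 1 := by
      have := congrArg (fun x => x ^ 2) ht
      simp only [sq_abs, one_pow] at this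
      linarith [this, sq t]
    refine ⟨insert γ K, Function.update θ γ t, G ∪ G', fun j => if j ∈ G' then γ else ξ j,
      fun j => if j ∈ G' then t else η j, ?_, ?_, ?_, ?_, ?_, ?_⟩
    · intro x hx
      rcases Finset.mem_insert.1 (Finset.mem_coe.1 hx) with rfl | hx
      · exact hγA
      · exact hKA hx
    · rw [Finset.card_insert_of_notMem hγK, hKn]
    · intro x
      by_cases hx : x = γ
      · subst hx; simpa using ht
      · simp [Function.update_of_ne hx, hθ x]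
    · simp [hiG, hG']
    · intro j
      by_cases hj : j ∈ G'
      · simp [hj, ht]
      · simp [hj, hη j]
    · have hsumK : (∑ x ∈ insert γ K, ((Function.update θ γ t x : ℝ) : 𝕜) • s x
          : lp (fun _ : J => E) 1) = (t : 𝕜) • s γ + u := by
        rw [Finset.sum_insert hγK]
        congr 1
        · simp
        · rw [hu]
          apply Finset.sum_congr rfl
          intro x hx
          have : x ≠ γ := fun h => hγK (h ▸ hx)
          rw [Function.update_of_ne this]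
      rw [hsumK, Finset.sum_union hdisj]
      have e1 : ∑ j ∈ G, (if j ∈ G' then t else η j) *
          re (φ (if j ∈ G' then γ else ξ j) (((t : 𝕜) • s γ + u : lp (fun _ : J => E) 1) j))
          = t * ∑ j ∈ G, η j * re (φ (ξ j) (s γ j)) + ∑ j ∈ G, η j * re (φ (ξ j) (u j)) := by
        rw [Finset.mul_sum, ← Finset.sum_add_distrib]
        apply Finset.sum_congr rfl
        intro j hj
        have hj' : j ∉ G' := Finset.disjoint_left.1 hdisj hj
        simp only [hj', if_false]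
        rw [lp.coeFn_add, lp.coeFn_smul]
        simp only [Pi.add_apply, Pi.smul_apply, map_add, map_smul, smul_eq_mul, re_ofReal_mul]
        ring
      have e2 : ∑ j ∈ G', (if j ∈ G' then t else η j) *
          re (φ (if j ∈ G' then γ else ξ j) (((t : 𝕜) • s γ + u : lp (fun _ : J => E) 1) j))
          = ∑ j ∈ G', re (φ γ (s γ j)) + t * ∑ j ∈ G', re (φ γ (u j)) := by
        rw [Finset.mul_sum, ← Finset.sum_add_distrib]
        apply Finset.sum_congr rfl
        intro j hj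
        simp only [hj, if_true]
        rw [lp.coeFn_add, lp.coeFn_smul]
        simp only [Pi.add_apply, Pi.smul_apply, map_add, map_smul, smul_eq_mul, re_ofReal_mul]
        rw [mul_add, ← mul_assoc, htt, one_mul]
      rw [e1, e2]
      push_cast
      nlinarith [hta, hmain, hG'sum, ha]

theorem comb_false [DecidableEq J] [DecidableEq Γ]
    (S : J → Set Γ) (A : Set Γ) (i : J) (φ : Γ → (E →L[𝕜] 𝕜)) (hφ : ∀ γ, ‖φ γ‖ ≤ 1)
    (s : Γ → lp (fun _ : J => E) 1)
    (hsum : ∀ γ ∈ A, HasSum (fun j => φ γ (s γ j)) 1)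
    (hzero : ∀ γ ∈ A, ∀ j, γ ∉ S j → φ γ (s γ j) = 0)
    (hi : ∀ γ ∈ A, s γ i = 0)
    (h2 : ∀ G : Finset J, i ∉ G → ∀ K : Finset Γ, ∃ γ ∈ A, γ ∉ K ∧ ∀ j ∈ G, γ ∉ S j)
    (C : ℝ)
    (hC : ∀ K : Finset Γ, (↑K ⊆ A) → ∀ θ : Γ → ℝ, (∀ γ, |θ γ| = 1) →
      ‖(∑ γ ∈ K, (θ γ : 𝕜) • s γ : lp (fun _ : J => E) 1)‖ ^ 2 ≤ C * K.card) : False := by
  obtain ⟨n, hn⟩ := exists_nat_gt (4 * C)
  obtain ⟨K, θ, G, ξ, η, hKA, hKn, hθ, hiG, hη, hmain⟩ :=
    comb_step S A i φ s hsum hzero hi h2 (n + 1)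
  set u : lp (fun _ : J => E) 1 := ∑ γ ∈ K, (θ γ : 𝕜) • s γ with hu
  have h1 : ∑ j ∈ G, η j * re (φ (ξ j) (u j)) ≤ ∑ j ∈ G, ‖u j‖ := by
    apply Finset.sum_le_sum
    intro j _
    calc η j * re (φ (ξ j) (u j)) ≤ |η j * re (φ (ξ j) (u j))| := le_abs_self _
      _ = |η j| * |re (φ (ξ j) (u j))| := abs_mul _ _
      _ ≤ 1 * ‖u j‖ := by
          apply mul_le_mul (hη j) _ (abs_nonneg _) zero_le_one
          calc |re (φ (ξ j) (u j))| ≤ ‖φ (ξ j) (u j)‖ := RCLike.abs_re_le_norm _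
            _ ≤ ‖φ (ξ j)‖ * ‖u j‖ := ContinuousLinearMap.le_opNorm _ _
            _ ≤ 1 * ‖u j‖ := by gcongr; exact hφ _
            _ = ‖u j‖ := one_mul _
      _ = ‖u j‖ := one_mul _
  have h3 := sum_norm_le_norm_one u G
  have h4 := hC K hKA θ hθ
  rw [← hu, hKn] at h4
  push_cast at h4 hmain
  have h5 : ((n : ℝ) + 1) / 2 ≤ ‖u‖ := by linarith
  have h6 : (((n : ℝ) + 1) / 2) ^ 2 ≤ ‖u‖ ^ 2 := by
    apply pow_le_pow_left₀ (by positivity) h5
  nlinarith [h6, h4, hn, Nat.cast_nonneg (α := ℝ) n]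

end Comb

end Pool.Agent.Helper893.V
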