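import Mathlib
import Pool.Agent.Helper893.V.Comb

open scoped ENNReal BigOperators
open RCLike

namespace Pool.Agent.Helper893.V

section Ker

variable {𝕜 : Type*} [RCLike 𝕜] {E : Type*} [NormedAddCommGroup E] [NormedSpace 𝕜 E]
  [CompleteSpace E]
variable {J Γ : Type*}

/-- The subspace of those absolutely summable families `b` with `b j ∈ F j` for all `j`, and with
sum zero. -/
noncomputable def kerSpace (F : J → Submodule 𝕜 E) : Submodule 𝕜 (lp (fun _ : J => E) 1) :=
  LinearMap.ker (lp.tsumCLM 𝕜 J E).toLinearMap ⊓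
    ⨅ j, (F j).comap (lp.evalCLM 𝕜 (fun _ : J => E) 1 j).toLinearMap

theorem mem_kerSpace {F : J → Submodule 𝕜 E} {b : lp (fun _ : J => E) 1} :
    b ∈ kerSpace F ↔ (∑' j, b j = 0) ∧ ∀ j, b j ∈ F j := by
  simp only [kerSpace, Submodule.mem_inf, LinearMap.mem_ker, Submodule.mem_iInf,
    Submodule.mem_comap]
  rfl

theorem isClosed_kerSpace {F : J → Submodule 𝕜 E} (hF : ∀ j, IsClosed (F j : Set E)) :
    IsClosed (kerSpace F : Set (lp (fun _ : J => E) 1)) := by
  have : (kerSpace F : Set (lp (fun _ : J => E) 1)) =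
      (lp.tsumCLM 𝕜 J E) ⁻¹' {0} ∩ ⋂ j, (lp.evalCLM 𝕜 (fun _ : J => E) 1 j) ⁻¹' (F j) := by
    ext b
    simp only [SetLike.mem_coe, mem_kerSpace, Set.mem_inter_iff, Set.mem_preimage,
      Set.mem_singleton_iff, Set.mem_iInter]
    rfl
  rw [this]
  apply IsClosed.inter
  · exact isClosed_singleton.preimage (lp.tsumCLM 𝕜 J E).continuous
  · exact isClosed_iInter fun j => (hF j).preimage (lp.evalCLM 𝕜 (fun _ : J => E) 1 j).continuous

theorem hasSum_coe (b : lp (fun _ : J => E) 1) : HasSum (fun j => b j) (∑' j, b j) :=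
  (Memℓp.summable_of_one (lp.memℓp b)).hasSum

theorem tsum_single [DecidableEq J] (c : J) (v : E) :
    ∑' j, (lp.single (E := fun _ : J => E) 1 c v) j = v := by
  rw [tsum_eq_single c]
  · simp
  · intro j hj
    simp [Pi.single_eq_of_ne hj]

theorem pre_mem [DecidableEq J] {F : J → Submodule 𝕜 E} {i c : J} {v : E} (hi : v ∈ F i)
    (hc : v ∈ F c) :
    lp.single (E := fun _ : J => E) 1 i v - lp.single (E := fun _ : J => E) 1 c v ∈ kerSpace F := by
  rw [mem_kerSpace]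
  constructor
  · have h := ((hasSum_coe (lp.single (E := fun _ : J => E) 1 i v)).sub
      (hasSum_coe (lp.single (E := fun _ : J => E) 1 c v))).tsum_eq
    rw [tsum_single, tsum_single, sub_self] at h
    rw [← h]
    rfl
  · intro j
    rw [lp.coeFn_sub, Pi.sub_apply]
    apply Submodule.sub_mem
    · by_cases h : j = i
      · subst h; simpa using hi
      · simp [Pi.single_eq_of_ne h]
    · by_cases h : j = c
      · subst h; simpa using hc
      · simp [Pi.single_eq_of_ne h]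

/-- No bounded operator on the kernel space can be the identity on the small part and miss the
coordinate `i`. -/
theorem no_operator [DecidableEq J] [DecidableEq Γ]
    (F : J → Submodule 𝕜 E) (S : J → Set Γ) (r : Γ → E) (φ : Γ → (E →L[𝕜] 𝕜))
    (hφ : ∀ γ, ‖φ γ‖ ≤ 1) (hφr : ∀ γ, φ γ (r γ) = 1)
    (hrF : ∀ j, ∀ γ ∈ S j, r γ ∈ F j)
    (hφF : ∀ j, ∀ γ ∉ S j, ∀ x ∈ F j, φ γ x = 0)
    (B : ℝ) (hB : ∀ K : Finset Γ, ∀ θ : Γ → ℝ, (∀ γ, |θ γ| = 1) →
      ‖∑ γ ∈ K, (θ γ : 𝕜) • r γ‖ ^ 2 ≤ B * K.card)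
    (J₀ : Set J) (i : J) (hi : i ∉ J₀)
    (h1 : ∀ K : Finset Γ, ↑K ⊆ S i → ∃ c ∈ J₀, ↑K ⊆ S c)
    (h2 : ∀ G : Finset J, i ∉ G → ∀ K : Finset Γ, ∃ γ ∈ S i, γ ∉ K ∧ ∀ j ∈ G, γ ∉ S j)
    (T : kerSpace F →L[𝕜] kerSpace F)
    (hT : ∀ x : kerSpace F, (∀ j ∉ J₀, (x : lp (fun _ : J => E) 1) j = 0) → T x = x)
    (hTi : ∀ x, (T x : lp (fun _ : J => E) 1) i = 0) : False := by
  classical
  -- choose small indices
  have hch : ∀ γ, ∃ c, γ ∈ S i → (c ∈ J₀ ∧ γ ∈ S c) := by
    intro γ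
    by_cases h : γ ∈ S i
    · obtain ⟨c, hc, hc'⟩ := h1 {γ} (by simpa using h)
      exact ⟨c, fun _ => ⟨hc, by simpa using hc'⟩⟩
    · exact ⟨i, fun h' => absurd h' h⟩
  choose c hc using hch
  -- the vectors in the kernel space
  let xv : J → E → kerSpace F := fun d v =>
    if h : (lp.single (E := fun _ : J => E) 1 i v - lp.single (E := fun _ : J => E) 1 d v ∈
      kerSpace F) then ⟨_, h⟩ else 0
  have hxv : ∀ d v, v ∈ F i → v ∈ F d → ((xv d v : kerSpace F) : lp (fun _ : J => E) 1) =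
      lp.single (E := fun _ : J => E) 1 i v - lp.single (E := fun _ : J => E) 1 d v := by
    intro d v h h'
    have := pre_mem (F := F) h h'
    simp only [xv, this, dif_pos]
  let s : Γ → lp (fun _ : J => E) 1 := fun γ =>
    (T (xv (c γ) (r γ)) : lp (fun _ : J => E) 1) + lp.single (E := fun _ : J => E) 1 (c γ) (r γ)
  -- independence of the choice
  have hindep : ∀ γ ∈ S i, ∀ d ∈ J₀, γ ∈ S d →
      s γ = (T (xv d (r γ)) : lp (fun _ : J => E) 1) + lp.single (E := fun _ : J => E) 1 d (r γ) := by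
    intro γ hγ d hd hγd
    obtain ⟨hcJ, hcS⟩ := hc γ hγ
    have hx1 := hxv (c γ) (r γ) (hrF i γ hγ) (hrF _ γ hcS)
    have hx2 := hxv d (r γ) (hrF i γ hγ) (hrF _ γ hγd)
    have hfix : T (xv (c γ) (r γ) - xv d (r γ)) = xv (c γ) (r γ) - xv d (r γ) := by
      apply hT
      intro j hj
      have hjc : j ≠ c γ := fun h => hj (h ▸ hcJ)
      have hjd : j ≠ d := fun h => hj (h ▸ hd)
      rw [Submodule.coe_sub, hx1, hx2]
      simp only [lp.coeFn_sub, Pi.sub_apply, lp.single_apply]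
      simp [Pi.single_eq_of_ne hjc, Pi.single_eq_of_ne hjd]
    rw [map_sub] at hfix
    have hfix' := congrArg (fun z : kerSpace F => (z : lp (fun _ : J => E) 1)) hfix
    simp only [Submodule.coe_sub] at hfix'
    rw [hx1, hx2] at hfix'
    have : s γ - ((T (xv d (r γ)) : lp (fun _ : J => E) 1) +
        lp.single (E := fun _ : J => E) 1 d (r γ)) = 0 := by
      have e : s γ - ((T (xv d (r γ)) : lp (fun _ : J => E) 1) +
        lp.single (E := fun _ : J => E) 1 d (r γ)) =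
        ((T (xv (c γ) (r γ)) : lp (fun _ : J => E) 1) - (T (xv d (r γ)) : lp (fun _ : J => E) 1))
        + (lp.single (E := fun _ : J => E) 1 (c γ) (r γ) -
          lp.single (E := fun _ : J => E) 1 d (r γ)) := by
        simp only [s]; abel
      rw [e, hfix']
      abel
    exact sub_eq_zero.1 this
  have hmemF : ∀ γ ∈ S i, ∀ j, s γ j ∈ F j := by
    intro γ hγ j
    obtain ⟨hcJ, hcS⟩ := hc γ hγ
    simp only [s, lp.coeFn_add, Pi.add_apply]
    apply Submodule.add_mem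
    · exact (mem_kerSpace.1 (T (xv (c γ) (r γ))).2).2 j
    · by_cases h : j = c γ
      · subst h
        simpa using hrF _ γ hcS
      · simp [Pi.single_eq_of_ne h]
  refine comb_false S (S i) i φ hφ s ?_ ?_ ?_ h2 ((2 * ‖T‖ + 1) ^ 2 * B) ?_
  · intro γ hγ
    have hs : HasSum (fun j => s γ j) (r γ) := by
      have h1' := hasSum_coe (T (xv (c γ) (r γ)) : lp (fun _ : J => E) 1)
      rw [(mem_kerSpace.1 (T (xv (c γ) (r γ))).2).1] at h1'
      have h2' := hasSum_coe (lp.single (E := fun _ : J => E) 1 (c γ) (r γ))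
      rw [tsum_single] at h2'
      have := h1'.add h2'
      rw [zero_add] at this
      exact this
    have := hs.mapL (φ γ)
    rwa [hφr] at this
  · intro γ hγ j hj
    exact hφF j γ hj _ (hmemF γ hγ j)
  · intro γ hγ
    obtain ⟨hcJ, hcS⟩ := hc γ hγ
    have hic : i ≠ c γ := fun h => hi (h ▸ hcJ)
    simp only [s, lp.coeFn_add, Pi.add_apply, hTi, lp.single_apply]
    simp [Pi.single_eq_of_ne hic]
  · intro K hK θ hθ
    obtain ⟨d, hd, hKd⟩ := h1 K hK
    set v : E := ∑ γ ∈ K, (θ γ : 𝕜) • r γ with hv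
    have hvi : v ∈ F i := Submodule.sum_mem _ fun γ hγ =>
      Submodule.smul_mem _ _ (hrF i γ (hK hγ))
    have hvd : v ∈ F d := Submodule.sum_mem _ fun γ hγ =>
      Submodule.smul_mem _ _ (hrF d γ (hKd hγ))
    have hxsum : xv d v = ∑ γ ∈ K, (θ γ : 𝕜) • xv d (r γ) := by
      apply Subtype.ext
      rw [hxv d v hvi hvd]
      push_cast
      have : ∀ γ ∈ K, (θ γ : 𝕜) • ((xv d (r γ) : kerSpace F) : lp (fun _ : J => E) 1) =
          (θ γ : 𝕜) • (lp.single (E := fun _ : J => E) 1 i (r γ) -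
            lp.single (E := fun _ : J => E) 1 d (r γ)) := by
        intro γ hγ
        rw [hxv d (r γ) (hrF i γ (hK hγ)) (hrF d γ (hKd hγ))]
      rw [Finset.sum_congr rfl this]
      simp only [smul_sub, Finset.sum_sub_distrib, hv]
      congr 1
      · change lp.singleContinuousLinearMap 𝕜 (fun _ : J => E) 1 i _ = _
        rw [map_sum]
        simp only [map_smul]
        rfl
      · change lp.singleContinuousLinearMap 𝕜 (fun _ : J => E) 1 d _ = _
        rw [map_sum]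
        simp only [map_smul]
        rfl
    have hsum : (∑ γ ∈ K, (θ γ : 𝕜) • s γ : lp (fun _ : J => E) 1) =
        (T (xv d v) : lp (fun _ : J => E) 1) + lp.single (E := fun _ : J => E) 1 d v := by
      have : ∀ γ ∈ K, (θ γ : 𝕜) • s γ = (θ γ : 𝕜) • ((T (xv d (r γ)) : lp (fun _ : J => E) 1) +
          lp.single (E := fun _ : J => E) 1 d (r γ)) := by
        intro γ hγ
        rw [hindep γ (hK hγ) d hd (hKd hγ)]
      rw [Finset.sum_congr rfl this, hxsum, map_sum]
      simp only [smul_add, Finset.sum_add_distrib, map_smul]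
      congr 1
      · push_cast; rfl
      · change _ = lp.singleContinuousLinearMap 𝕜 (fun _ : J => E) 1 d _
        rw [hv, map_sum]
        simp only [map_smul]
        rfl
    have hnorm : ‖(∑ γ ∈ K, (θ γ : 𝕜) • s γ : lp (fun _ : J => E) 1)‖ ≤ (2 * ‖T‖ + 1) * ‖v‖ := by
      rw [hsum]
      have hn1 : ‖(T (xv d v) : lp (fun _ : J => E) 1)‖ ≤ ‖T‖ * (2 * ‖v‖) := by
        calc ‖(T (xv d v) : lp (fun _ : J => E) 1)‖ = ‖T (xv d v)‖ := rfl
          _ ≤ ‖T‖ * ‖xv d v‖ := T.le_opNorm _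
          _ ≤ ‖T‖ * (2 * ‖v‖) := by
            gcongr
            have : ‖xv d v‖ = ‖((xv d v : kerSpace F) : lp (fun _ : J => E) 1)‖ := rfl
            rw [this, hxv d v hvi hvd]
            calc _ ≤ ‖lp.single (E := fun _ : J => E) 1 i v‖ + ‖lp.single (E := fun _ : J => E) 1 d v‖ :=
                  norm_sub_le _ _
              _ = 2 * ‖v‖ := by
                rw [lp.norm_single (by simp), lp.norm_single (by simp)]; ring
      have hn2 : ‖lp.single (E := fun _ : J => E) 1 d v‖ = ‖v‖ := lp.norm_single (by simp) _ _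
      calc _ ≤ ‖(T (xv d v) : lp (fun _ : J => E) 1)‖ + ‖lp.single (E := fun _ : J => E) 1 d v‖ :=
            norm_add_le _ _
        _ ≤ ‖T‖ * (2 * ‖v‖) + ‖v‖ := by rw [hn2]; gcongr
        _ = (2 * ‖T‖ + 1) * ‖v‖ := by ring
    have hv2 := hB K θ hθ
    rw [← hv] at hv2
    calc ‖(∑ γ ∈ K, (θ γ : 𝕜) • s γ : lp (fun _ : J => E) 1)‖ ^ 2
        ≤ ((2 * ‖T‖ + 1) * ‖v‖) ^ 2 := by gcongr
      _ = (2 * ‖T‖ + 1) ^ 2 * ‖v‖ ^ 2 := by ring
      _ ≤ (2 * ‖T‖ + 1) ^ 2 * (B * K.card) := by gcongr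
      _ = (2 * ‖T‖ + 1) ^ 2 * B * K.card := by ring

end Ker

end Pool.Agent.Helper893.V
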