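import Mathlib

open scoped ENNReal BigOperators Topology
open Filter

namespace Pool.Agent.Helper893.V

/-- A generalised limit on bounded real sequences. -/
theorem exists_genLim : ∃ L : (lp (fun _ : ℕ => ℝ) ∞) →L[ℝ] ℝ, (∀ a, |L a| ≤ ‖a‖) ∧
    ∀ (a : lp (fun _ : ℕ => ℝ) ∞) (c : ℝ), Tendsto (fun k => a k) atTop (𝓝 c) → L a = c := by
  let ev : ℕ → (lp (fun _ : ℕ => ℝ) ∞) →L[ℝ] ℝ := fun k => lp.evalCLM ℝ (fun _ : ℕ => ℝ) ∞ k
  have hev : ∀ k a, ev k a = a k := fun k a => rfl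
  have hnorm : ∀ k, ‖ev k‖ ≤ 1 := by
    intro k
    apply ContinuousLinearMap.opNorm_le_bound _ zero_le_one
    intro x
    rw [one_mul]
    exact lp.norm_apply_le_norm (by simp) x k
  let evw : ℕ → WeakDual ℝ (lp (fun _ : ℕ => ℝ) ∞) := fun k => StrongDual.toWeakDual (ev k)
  have hK := WeakDual.isCompact_closedBall (𝕜 := ℝ) (E := lp (fun _ : ℕ => ℝ) ∞) 0 1
  have hmem : ∀ k, evw k ∈ WeakDual.toStrongDual ⁻¹' Metric.closedBall
      (0 : StrongDual ℝ (lp (fun _ : ℕ => ℝ) ∞)) 1 := by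
    intro k
    rw [Set.mem_preimage, mem_closedBall_zero_iff]
    exact hnorm k
  obtain ⟨L, hLK, hL⟩ := hK.ultrafilter_le_nhds (Ultrafilter.map evw (hyperfilter ℕ)) (by
    rw [le_principal_iff]
    exact Filter.mem_map.2 (Filter.univ_mem' hmem))
  have hconv : ∀ a : lp (fun _ : ℕ => ℝ) ∞, Tendsto (fun k => a k) (hyperfilter ℕ : Filter ℕ)
      (𝓝 (L a)) := by
    intro a
    have h1 : Tendsto evw (hyperfilter ℕ : Filter ℕ) (𝓝 L) := hL
    have h2 := (WeakDual.eval_continuous (𝕜 := ℝ) (E := lp (fun _ : ℕ => ℝ) ∞) a).tendsto L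
    exact h2.comp h1
  refine ⟨WeakDual.toStrongDual L, ?_, ?_⟩
  · intro a
    have h1 : ‖WeakDual.toStrongDual L‖ ≤ 1 := by
      simpa using hLK
    have h2 := (WeakDual.toStrongDual L).le_opNorm a
    calc |(WeakDual.toStrongDual L) a| = ‖(WeakDual.toStrongDual L) a‖ := rfl
      _ ≤ ‖WeakDual.toStrongDual L‖ * ‖a‖ := h2
      _ ≤ 1 * ‖a‖ := by gcongr
      _ = ‖a‖ := one_mul _
  · intro a c hc
    have h1 : Tendsto (fun k => a k) (hyperfilter ℕ : Filter ℕ) (𝓝 c) :=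
      hc.mono_left Nat.hyperfilter_le_atTop
    exact tendsto_nhds_unique (hconv a) h1

end Pool.Agent.Helper893.V
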