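import Mathlib
import Pool.Agent.Helper893.V.Pel
import Pool.Agent.Helper893.V.Ker
import Pool.Agent.Helper893.V.Tools

open scoped ENNReal BigOperators Topology
open Filter TopologicalSpace

namespace Pool.Agent.Helper893.V

/-- Generalised limits of bounded sequences of bilinear forms. -/
theorem exists_limop {G H : Type} [NormedAddCommGroup G] [NormedSpace ℝ G]
    [NormedAddCommGroup H] [NormedSpace ℝ H] (B : ℕ → (G →L[ℝ] (H →L[ℝ] ℝ))) (C : ℝ)
    (hC : 0 ≤ C) (hB : ∀ m g x, |B m g x| ≤ C * ‖g‖ * ‖x‖) :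
    ∃ ψ : G →L[ℝ] (H →L[ℝ] ℝ),
      ∀ g x c, Tendsto (fun m => B m g x) atTop (𝓝 c) → ψ g x = c := by
  obtain ⟨L, hL1, hL2⟩ := exists_genLim
  let q : G → H → Linf ℕ := fun g x => ⟨fun m => B m g x, memℓp_infty ⟨C * ‖g‖ * ‖x‖, by
    rintro _ ⟨m, rfl⟩
    exact hB m g x⟩⟩
  have hq : ∀ g x m, q g x m = B m g x := fun g x m => rfl
  have h1 : ∀ g g' x, q (g + g') x = q g x + q g' x := by
    intro g g' x
    apply lp.ext
    funext m
    rw [lp.coeFn_add, Pi.add_apply, hq, hq, hq, map_add]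
    rfl
  have h2 : ∀ (c : ℝ) g x, q (c • g) x = c • q g x := by
    intro c g x
    apply lp.ext
    funext m
    rw [lp.coeFn_smul, Pi.smul_apply, hq, hq, map_smul]
    rfl
  have h3 : ∀ g x x', q g (x + x') = q g x + q g x' := by
    intro g x x'
    apply lp.ext
    funext m
    rw [lp.coeFn_add, Pi.add_apply, hq, hq, hq, map_add]
  have h4 : ∀ (c : ℝ) g x, q g (c • x) = c • q g x := by
    intro c g x
    apply lp.ext
    funext m
    rw [lp.coeFn_smul, Pi.smul_apply, hq, hq, map_smul]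
  let Ψ : G →ₗ[ℝ] H →ₗ[ℝ] ℝ := LinearMap.mk₂ ℝ (fun g x => L (q g x))
    (fun g g' x => by rw [h1, map_add]) (fun c g x => by rw [h2, map_smul])
    (fun g x x' => by rw [h3, map_add]) (fun c g x => by rw [h4, map_smul])
  refine ⟨LinearMap.mkContinuous₂ Ψ C ?_, ?_⟩
  · intro g x
    refine (hL1 _).trans ?_
    exact linf_norm_le (by positivity) (fun m => hB m g x)
  · intro g x c hc
    exact hL2 (q g x) c hc

section Embed

variable {E : Type} [NormedAddCommGroup E] [NormedSpace ℝ E] [CompleteSpace E] {J I : Type}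

theorem embed [DecidableEq J]
    (F : J → Submodule ℝ E) (b : ℕ → J) (Sm : ℕ → Finset I)
    (c : ℕ → I → (E →L[ℝ] ℝ)) (hc : ∀ m x, ∑ s ∈ Sm m, |c m s x| ≤ ‖x‖)
    (h : J → ℕ → I → E) (hn : ∀ j m s, ‖h j m s‖ ≤ 1) (hF : ∀ j m s, h j m s ∈ F j)
    (hb : ∀ j m s, h j m s ∈ F (b m))
    (D : ℕ → (E →L[ℝ] E)) (hDn : ∀ m x, ‖D m x‖ ≤ ‖x‖)
    (hD : ∀ m j, ∀ x ∈ F j, ∑ s ∈ Sm m, c m s x • h j m s = D m x)
    (hlim : ∀ j, ∀ x ∈ F j, Tendsto (fun m => D m x) atTop (𝓝 x)) :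
    ∃ (jm : (kerSpace F →L[ℝ] ℝ) →L[ℝ] Linf (ℕ × J × I))
      (ψ : Linf (ℕ × J × I) →L[ℝ] (kerSpace F →L[ℝ] ℝ)), ∀ x, ψ (jm x) = x := by
  -- the vectors
  let xv : ℕ × J × I → kerSpace F := fun q =>
    ⟨_, pre_mem (i := q.2.1) (c := b q.1) (hF q.2.1 q.1 q.2.2) (hb q.2.1 q.1 q.2.2)⟩
  have hxv : ∀ m j s, (xv (m, j, s) : lp (fun _ : J => E) 1) =
    lp.single (E := fun _ : J => E) 1 j (h j m s) -
      lp.single (E := fun _ : J => E) 1 (b m) (h j m s) := fun m j s => rfl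
  have hxvn : ∀ q, ‖xv q‖ ≤ 2 := by
    rintro ⟨m, j, s⟩
    rw [Submodule.coe_norm, hxv]
    refine (norm_sub_le _ _).trans ?_
    rw [lp.norm_single (E := fun _ : J => E) zero_lt_one, lp.norm_single (E := fun _ : J => E)
      zero_lt_one]
    linarith [hn j m s]
  let jm₀ : (kerSpace F →L[ℝ] ℝ) →ₗ[ℝ] Linf (ℕ × J × I) :=
    { toFun := fun φ => ⟨fun q => φ (xv q), memℓp_infty ⟨‖φ‖ * 2, by
        rintro _ ⟨q, rfl⟩
        exact (φ.le_opNorm _).trans (by gcongr; exact hxvn q)⟩⟩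
      map_add' := fun φ φ' => rfl
      map_smul' := fun a φ => rfl }
  have hjm₀ : ∀ φ q, jm₀ φ q = φ (xv q) := fun φ q => rfl
  have hjmb : ∀ φ, ‖jm₀ φ‖ ≤ 2 * ‖φ‖ := by
    intro φ
    apply linf_norm_le (by positivity)
    intro q
    rw [mul_comm, hjm₀]
    exact (φ.le_opNorm _).trans (by gcongr; exact hxvn q)
  let jm : (kerSpace F →L[ℝ] ℝ) →L[ℝ] Linf (ℕ × J × I) :=
    ⟨jm₀, AddMonoidHomClass.continuous_of_bound jm₀ 2 hjmb⟩
  have hjm : ∀ φ q, jm φ q = φ (xv q) := fun φ q => rfl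
  -- the approximating bilinear forms
  have hAb : ∀ m (g : Linf (ℕ × J × I)) j,
      ‖∑ s ∈ Sm m, g (m, j, s) • c m s‖ ≤ ‖g‖ := by
    intro m g j
    apply ContinuousLinearMap.opNorm_le_bound _ (norm_nonneg _)
    intro x
    simp only [FunLike.coe_sum, Finset.sum_apply, FunLike.coe_smul, Pi.smul_apply, smul_eq_mul]
    calc ‖∑ s ∈ Sm m, g (m, j, s) * c m s x‖ ≤ ∑ s ∈ Sm m, ‖g (m, j, s) * c m s x‖ :=
          norm_sum_le _ _
      _ ≤ ∑ s ∈ Sm m, ‖g‖ * |c m s x| := by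
        apply Finset.sum_le_sum
        intro s _
        rw [norm_mul]
        exact mul_le_mul (linf_apply_le g _) le_rfl (abs_nonneg _) (norm_nonneg _)
      _ = ‖g‖ * ∑ s ∈ Sm m, |c m s x| := by rw [Finset.mul_sum]
      _ ≤ ‖g‖ * ‖x‖ := by gcongr; exact hc m x
  let A : ℕ → (Linf (ℕ × J × I) →L[ℝ] lp (fun _ : J => (E →L[ℝ] ℝ)) ∞) := fun m =>
    LinearMap.mkContinuous
    { toFun := fun g => ⟨fun j => ∑ s ∈ Sm m, g (m, j, s) • c m s, memℓp_infty ⟨‖g‖, by
        rintro _ ⟨j, rfl⟩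
        exact hAb m g j⟩⟩
      map_add' := fun g g' => by
        apply lp.ext
        funext j
        show ∑ s ∈ Sm m, (g + g') (m, j, s) • c m s =
          (∑ s ∈ Sm m, g (m, j, s) • c m s) + (∑ s ∈ Sm m, g' (m, j, s) • c m s)
        simp only [lp.coeFn_add, Pi.add_apply, add_smul, Finset.sum_add_distrib]
      map_smul' := fun a g => by
        apply lp.ext
        funext j
        show ∑ s ∈ Sm m, (a • g) (m, j, s) • c m s = a • (∑ s ∈ Sm m, g (m, j, s) • c m s)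
        simp only [lp.coeFn_smul, Pi.smul_apply, smul_eq_mul, mul_smul, Finset.smul_sum] }
      1 (fun g => by
        rw [one_mul]
        exact lp.norm_le_of_forall_le (norm_nonneg _) (hAb m g))
  have hA : ∀ m g j, A m g j = ∑ s ∈ Sm m, g (m, j, s) • c m s := fun m g j => rfl
  have hAn : ∀ m g, ‖A m g‖ ≤ ‖g‖ := fun m g =>
    lp.norm_le_of_forall_le (norm_nonneg _) (hAb m g)
  let dp : lp (fun _ : J => (E →L[ℝ] ℝ)) ∞ →L[ℝ] (lp (fun _ : J => E) 1 →L[ℝ] ℝ) :=
    lp.dualPairing ∞ 1 (fun _ => ContinuousLinearMap.id ℝ (E →L[ℝ] ℝ)) (K := 1)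
    (fun _ => ContinuousLinearMap.norm_id_le)
  have hdp : ∀ a x, dp a x = ∑' j, a j (x j) := fun a x => rfl
  have hdpn : ∀ a x, |dp a x| ≤ ‖a‖ * ‖x‖ := by
    intro a x
    have h1 : ‖dp‖ ≤ 1 := lp.norm_dualPairing _ _
    have h2 := (dp a).le_opNorm x
    have h3 := dp.le_opNorm a
    calc |dp a x| ≤ ‖dp a‖ * ‖x‖ := h2
      _ ≤ (‖dp‖ * ‖a‖) * ‖x‖ := by gcongr
      _ ≤ (1 * ‖a‖) * ‖x‖ := by gcongr
      _ = ‖a‖ * ‖x‖ := by rw [one_mul]
  let res : (lp (fun _ : J => E) 1 →L[ℝ] ℝ) →L[ℝ] (kerSpace F →L[ℝ] ℝ) :=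
    ContinuousLinearMap.precomp ℝ (kerSpace F).subtypeL
  have hres : ∀ a (x : kerSpace F), res a x = a (x : lp (fun _ : J => E) 1) := fun a x => rfl
  let B : ℕ → (Linf (ℕ × J × I) →L[ℝ] (kerSpace F →L[ℝ] ℝ)) := fun m =>
    res.comp (dp.comp (A m))
  have hB : ∀ m g (x : kerSpace F), B m g x =
      ∑' j, ∑ s ∈ Sm m, g (m, j, s) * c m s ((x : lp (fun _ : J => E) 1) j) := by
    intro m g x
    show dp (A m g) (x : lp (fun _ : J => E) 1) = _
    rw [hdp]
    congr 1
    funext j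
    rw [hA]
    simp only [FunLike.coe_sum, Finset.sum_apply, FunLike.coe_smul, Pi.smul_apply, smul_eq_mul]
  have hBn : ∀ m g (x : kerSpace F), |B m g x| ≤ 1 * ‖g‖ * ‖x‖ := by
    intro m g x
    show |dp (A m g) (x : lp (fun _ : J => E) 1)| ≤ _
    rw [one_mul]
    refine (hdpn _ _).trans ?_
    rw [Submodule.coe_norm]
    gcongr
    exact hAn m g
  obtain ⟨ψ, hψ⟩ := exists_limop B 1 zero_le_one hBn
  refine ⟨jm, ψ, fun φ => ?_⟩
  ext x
  apply hψ
  -- the approximations of `x`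
  let R : ℕ → lp (fun _ : J => E) 1 := fun m =>
    lpMap 1 (fun _ => (D m).toLinearMap) (fun _ => hDn m) (x : lp (fun _ : J => E) 1)
  have hR : ∀ m j, R m j = D m ((x : lp (fun _ : J => E) 1) j) := fun m j => rfl
  have hxm := mem_kerSpace.1 x.2
  have hsum0 : HasSum (fun j => (x : lp (fun _ : J => E) 1) j) 0 := by
    have := hasSum_coe (x : lp (fun _ : J => E) 1)
    rwa [hxm.1] at this
  have hRm : ∀ m, R m ∈ kerSpace F := by
    intro m
    rw [mem_kerSpace]
    constructor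
    · have := (D m).hasSum hsum0
      rw [map_zero] at this
      exact this.tsum_eq
    · intro j
      rw [hR, ← hD m j _ (hxm.2 j)]
      exact Submodule.sum_mem _ (fun s _ => Submodule.smul_mem _ _ (hF j m s))
  have hRs : ∀ m, HasSum (fun j => ∑ s ∈ Sm m,
      c m s ((x : lp (fun _ : J => E) 1) j) • xv (m, j, s)) (⟨R m, hRm m⟩ : kerSpace F) := by
    intro m
    have hind : Topology.IsInducing ((kerSpace F).subtypeL : kerSpace F → lp (fun _ : J => E) 1) :=
      Topology.IsInducing.subtypeVal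
    rw [← hind.hasSum_iff]
    have e1 : ∀ j, ((∑ s ∈ Sm m, c m s ((x : lp (fun _ : J => E) 1) j) • xv (m, j, s) :
        kerSpace F) : lp (fun _ : J => E) 1) =
        lp.single (E := fun _ : J => E) 1 j (R m j) -
        lp.singleContinuousLinearMap ℝ (fun _ : J => E) 1 (b m) (D m ((x : lp (fun _ : J => E) 1) j)) := by
      intro j
      rw [hR, ← hD m j _ (hxm.2 j)]
      have e2 : ∀ i, lp.single (E := fun _ : J => E) 1 i (∑ s ∈ Sm m,
        c m s ((x : lp (fun _ : J => E) 1) j) • h j m s) = ∑ s ∈ Sm m,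
          c m s ((x : lp (fun _ : J => E) 1) j) • lp.single (E := fun _ : J => E) 1 i (h j m s) := by
        intro i
        have := map_sum (lp.singleContinuousLinearMap ℝ (fun _ : J => E) 1 i)
          (fun s => c m s ((x : lp (fun _ : J => E) 1) j) • h j m s) (Sm m)
        simp only [map_smul] at this
        exact this
      rw [lp.singleContinuousLinearMap_apply, e2, e2, ← Finset.sum_sub_distrib]
      simp only [Submodule.coe_sum, Submodule.coe_smul, hxv, smul_sub]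
    have e3 : HasSum (fun j => lp.single (E := fun _ : J => E) 1 j (R m j)) (R m) :=
      lp.hasSum_single (by simp) (R m)
    have e4 := ((lp.singleContinuousLinearMap ℝ (fun _ : J => E) 1 (b m)).comp (D m)).hasSum hsum0
    rw [map_zero] at e4
    have e5 := e3.sub e4
    rw [sub_zero] at e5
    convert e5 using 1
    · funext j
      exact e1 j
    · rfl
  have hval : ∀ m, B m (jm φ) x = φ ⟨R m, hRm m⟩ := by
    intro m
    rw [hB]
    have := φ.hasSum (hRs m)
    rw [← this.tsum_eq]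
    congr 1
    funext j
    rw [map_sum]
    apply Finset.sum_congr rfl
    intro s _
    rw [map_smul, hjm, smul_eq_mul, mul_comm]
  simp only [hval]
  -- convergence
  have hconv : Tendsto (fun m => (⟨R m, hRm m⟩ : kerSpace F)) atTop (𝓝 x) := by
    rw [tendsto_iff_norm_sub_tendsto_zero]
    have e1 : ∀ m, ‖(⟨R m, hRm m⟩ : kerSpace F) - x‖ =
        ∑' j, ‖D m ((x : lp (fun _ : J => E) 1) j) - (x : lp (fun _ : J => E) 1) j‖ := by
      intro m
      rw [Submodule.coe_norm, lp.norm_eq_tsum_rpow (by simp)]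
      simp only [ENNReal.toReal_one, Real.rpow_one, ne_eq, one_ne_zero, not_false_eq_true, div_self]
      rfl
    simp only [e1]
    have e2 : Summable (fun j => 2 * ‖(x : lp (fun _ : J => E) 1) j‖) := by
      apply Summable.mul_left
      have := (lp.memℓp (x : lp (fun _ : J => E) 1)).summable (by simp)
      simpa using this
    have e3 := tendsto_tsum_of_dominated_convergence (𝓕 := atTop)
      (f := fun m j => ‖D m ((x : lp (fun _ : J => E) 1) j) - (x : lp (fun _ : J => E) 1) j‖)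
      (g := fun _ => 0) e2 ?_ ?_
    · simpa using e3
    · intro j
      have := hlim j _ (hxm.2 j)
      rw [tendsto_iff_norm_sub_tendsto_zero] at this
      exact this
    · filter_upwards with m j
      rw [Real.norm_eq_abs, abs_of_nonneg (norm_nonneg _)]
      calc _ ≤ ‖D m ((x : lp (fun _ : J => E) 1) j)‖ + ‖(x : lp (fun _ : J => E) 1) j‖ :=
            norm_sub_le _ _
        _ ≤ _ := by linarith [hDn m ((x : lp (fun _ : J => E) 1) j)]
  exact (φ.continuous.tendsto x).comp hconv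

end Embed

end Pool.Agent.Helper893.V
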