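import Mathlib
import Pool.Agent.Helper893.V.Major

open scoped ENNReal BigOperators Topology
open Filter

namespace Pool.Agent.Helper893.V

section Sing

variable {N : Type}

/-- the dual of `ℓ∞(N)` -/
abbrev DL (N : Type) : Type := Linf N →L[ℝ] ℝ

/-- functions with values in the unit interval -/
def Unit01 (g : Linf N) : Prop := ∀ n, 0 ≤ g n ∧ g n ≤ 1

/-- Multiplication of a functional by a bounded function, as a linear map in the function. -/
noncomputable def mulL (μ : DL N) : Linf N →ₗ[ℝ] DL N where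
  toFun := fun f => μ.comp (ContinuousLinearMap.mul ℝ (Linf N) f)
  map_add' := fun f g => by
    ext h
    simp
  map_smul' := fun c f => by
    ext h
    simp

theorem mulL_apply (μ : DL N) (f g : Linf N) : mulL μ f g = μ (f * g) := rfl

theorem mulL_one (μ : DL N) : mulL μ 1 = μ := by
  ext g
  rw [mulL_apply, one_mul]

/-- functionals absolutely continuous with respect to `μ` -/
noncomputable def LL (μ : DL N) : Submodule ℝ (DL N) := (LinearMap.range (mulL μ)).topologicalClosure

theorem isClosed_LL (μ : DL N) : IsClosed (LL μ : Set (DL N)) :=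
  Submodule.isClosed_topologicalClosure _

theorem mulL_mem_LL (μ : DL N) (f : Linf N) : mulL μ f ∈ LL μ :=
  Submodule.le_topologicalClosure _ ⟨f, rfl⟩

theorem self_mem_LL (μ : DL N) : μ ∈ LL μ := by
  have := mulL_mem_LL μ 1
  rwa [mulL_one] at this

theorem mem_LL_of_dom {μ ν : DL N} (hμ : Pos μ) {c : ℝ} (hc : 0 ≤ c)
    (h : ∀ f h : Linf N, (∀ n, |f n| ≤ h n) → |ν f| ≤ c * μ h) : ν ∈ LL μ := by
  rw [LL, ← SetLike.mem_coe, Submodule.topologicalClosure_coe, Metric.mem_closure_iff]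
  intro ε hε
  obtain ⟨f, hf⟩ := exists_density hμ hc h (half_pos hε)
  refine ⟨mulL μ f, ⟨f, rfl⟩, ?_⟩
  rw [dist_eq_norm]
  refine lt_of_le_of_lt ?_ (half_lt_self hε)
  refine ContinuousLinearMap.opNorm_le_of_unit_norm (half_pos hε).le ?_
  intro g hg
  exact hf g hg.le

/-- the operator of multiplication by a function on functionals -/
noncomputable def mulR (f : Linf N) : DL N →L[ℝ] DL N :=
  (ContinuousLinearMap.compL ℝ (Linf N) (Linf N) ℝ).flip (ContinuousLinearMap.mul ℝ (Linf N) f)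

theorem mulR_apply (f : Linf N) (μ : DL N) : mulR f μ = mulL μ f := rfl

theorem mulR_mulL (f g : Linf N) (μ : DL N) : mulR f (mulL μ g) = mulL μ (g * f) := by
  rw [mulR_apply]
  ext h
  rw [mulL_apply, mulL_apply, mulL_apply, mul_assoc]

theorem LL_module (μ ν : DL N) (hν : ν ∈ LL μ) (f : Linf N) : mulL ν f ∈ LL μ := by
  have h1 : LL μ ≤ (LL μ).comap (mulR f : DL N →ₗ[ℝ] DL N) := by
    refine Submodule.topologicalClosure_minimal _ ?_ ?_
    · rintro _ ⟨g, rfl⟩
      rw [Submodule.mem_comap]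
      change mulR f (mulL μ g) ∈ LL μ
      rw [mulR_mulL]
      exact mulL_mem_LL μ _
    · exact (isClosed_LL μ).preimage (mulR f).continuous
  exact h1 hν

theorem LL_le_of_mem {μ : DL N} {E : Submodule ℝ (DL N)} (hE : IsClosed (E : Set (DL N)))
    (hmod : ∀ ν ∈ E, ∀ f, mulL ν f ∈ E) (h : μ ∈ E) : LL μ ≤ E := by
  refine Submodule.topologicalClosure_minimal _ ?_ hE
  rintro _ ⟨f, rfl⟩
  exact hmod μ h f

theorem Pos.norm_eq {μ : DL N} (hμ : Pos μ) (f : Linf N) : |μ f| ≤ μ 1 * ‖f‖ := by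
  have h1 : ∀ n, |f n| ≤ (‖f‖ • (1 : Linf N)) n := fun n => by
    rw [lp.coeFn_smul, Pi.smul_apply, linf_one_apply, smul_eq_mul, mul_one]
    exact linf_apply_le f n
  have h2 : μ f ≤ μ (‖f‖ • (1 : Linf N)) := hμ.mono fun n => (le_abs_self _).trans (h1 n)
  have h3 : μ (-f) ≤ μ (‖f‖ • (1 : Linf N)) := hμ.mono fun n => by
    rw [lp.coeFn_neg, Pi.neg_apply]
    exact (neg_le_abs _).trans (h1 n)
  rw [map_smul, smul_eq_mul] at h2 h3
  rw [map_neg] at h3
  rw [abs_le]
  constructor <;> nlinarith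

theorem Pos.norm_le {μ : DL N} (hμ : Pos μ) : ‖μ‖ ≤ μ 1 := by
  refine ContinuousLinearMap.opNorm_le_bound _ ?_ fun f => hμ.norm_eq f
  exact hμ 1 (fun n => by rw [linf_one_apply]; exact zero_le_one)

theorem Pos.one_nonneg {μ : DL N} (hμ : Pos μ) : 0 ≤ μ 1 :=
  hμ 1 (fun n => by rw [linf_one_apply]; exact zero_le_one)

theorem Pos.eq_zero {μ : DL N} (hμ : Pos μ) (h : μ 1 ≤ 0) : μ = 0 := by
  have := hμ.norm_le
  exact norm_le_zero_iff.mp (this.trans h)

theorem Pos.zero : Pos (0 : DL N) := fun _ _ => le_rfl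

theorem isClosed_Pos : IsClosed {μ : DL N | Pos μ} := by
  have : {μ : DL N | Pos μ} = ⋂ f : {f : Linf N // ∀ n, 0 ≤ f n}, {μ | 0 ≤ μ f.1} := by
    ext μ
    simp only [Set.mem_ofPred_eq, Set.mem_iInter]
    constructor
    · intro h f
      exact h f.1 f.2
    · intro h f hf
      exact h ⟨f, hf⟩
  rw [this]
  refine isClosed_iInter fun f => ?_
  exact isClosed_le continuous_const (ContinuousLinearMap.apply ℝ ℝ f.1).continuous

/-- a positive functional dominated by a positive functional is absolutely continuous -/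
theorem mem_LL_of_le {μ w : DL N} (hμ : Pos μ) (hw : Pos w) (h : Pos (μ - w)) : w ∈ LL μ := by
  refine mem_LL_of_dom hμ zero_le_one ?_
  intro f g hfg
  rw [one_mul]
  have h1 : |w f| ≤ w g := by
    rw [abs_le]
    constructor
    · have : w (-g) ≤ w f := hw.mono fun n => by
        rw [lp.coeFn_neg, Pi.neg_apply]
        linarith [neg_abs_le (f n), hfg n]
      rwa [map_neg] at this
    · exact hw.mono fun n => (le_abs_self _).trans (hfg n)
  have h2 := h g (fun n => (abs_nonneg _).trans (hfg n))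
  rw [sub_apply] at h2
  linarith

/-- singularity of positive functionals -/
def Sing (μ ν : DL N) : Prop := ∀ ε : ℝ, 0 < ε → ∃ g : Linf N, Unit01 g ∧ μ g ≤ ε ∧ ν (1 - g) ≤ ε

theorem Unit01.compl {g : Linf N} (hg : Unit01 g) : Unit01 (1 - g) := fun n => by
  rw [lp.coeFn_sub, Pi.sub_apply, linf_one_apply]
  constructor <;> linarith [(hg n).1, (hg n).2]

theorem Sing.symm {μ ν : DL N} (h : Sing μ ν) : Sing ν μ := by
  intro ε hε
  obtain ⟨g, hg, h1, h2⟩ := h ε hε
  exact ⟨1 - g, hg.compl, h2, by rwa [sub_sub_cancel]⟩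

theorem Sing.zero_left (ν : DL N) : Sing 0 ν := fun ε hε =>
  ⟨1, fun n => by rw [linf_one_apply]; exact ⟨zero_le_one, le_rfl⟩, by simpa using hε.le, by
    rw [sub_self, map_zero]; exact hε.le⟩

theorem Sing.add_left {μ μ' ν : DL N} (hμ : Pos μ) (hμ' : Pos μ') (hν : Pos ν) (h : Sing μ ν)
    (h' : Sing μ' ν) : Sing (μ + μ') ν := by
  intro ε hε
  obtain ⟨g, hg, h1, h2⟩ := h (ε / 2) (by positivity)
  obtain ⟨g', hg', h1', h2'⟩ := h' (ε / 2) (by positivity)
  have hle1 : μ (g * g') ≤ μ g := hμ.mono fun n => by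
    rw [linf_mul_apply]
    exact mul_le_of_le_one_right (hg n).1 (hg' n).2
  have hle2 : μ' (g * g') ≤ μ' g' := hμ'.mono fun n => by
    rw [linf_mul_apply]
    exact mul_le_of_le_one_left (hg' n).1 (hg n).2
  have hle3 : ν (1 - g * g') ≤ ν ((1 - g) + (1 - g')) := hν.mono fun n => by
    simp only [lp.coeFn_sub, lp.coeFn_add, Pi.sub_apply, Pi.add_apply, linf_mul_apply,
      linf_one_apply]
    nlinarith [(hg n).1, (hg n).2, (hg' n).1, (hg' n).2]
  refine ⟨g * g', fun n => ?_, ?_, ?_⟩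
  · rw [linf_mul_apply]
    exact ⟨mul_nonneg (hg n).1 (hg' n).1, mul_le_one₀ (hg n).2 (hg' n).1 (hg' n).2⟩
  · rw [add_apply]
    linarith
  · rw [map_add] at hle3
    linarith

theorem Pos.sum {ι : Type*} (s : Finset ι) (μ : ι → DL N) (h : ∀ i ∈ s, Pos (μ i)) :
    Pos (∑ i ∈ s, μ i) := by
  classical
  induction s using Finset.induction_on with
  | empty => simpa using (Pos.zero : Pos (0 : DL N))
  | insert i s hi ih =>
    rw [Finset.sum_insert hi]
    exact (h i (Finset.mem_insert_self _ _)).add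
      (ih fun j hj => h j (Finset.mem_insert_of_mem hj))

theorem Sing.sum_left {ι : Type*} (s : Finset ι) (μ : ι → DL N) (ν : DL N)
    (h : ∀ i ∈ s, Pos (μ i)) (hν : Pos ν) (hs : ∀ i ∈ s, Sing (μ i) ν) : Sing (∑ i ∈ s, μ i) ν := by
  classical
  induction s using Finset.induction_on with
  | empty => simpa using Sing.zero_left ν
  | insert i s hi ih =>
    rw [Finset.sum_insert hi]
    exact Sing.add_left (h i (Finset.mem_insert_self _ _))
      (Pos.sum s μ fun j hj => h j (Finset.mem_insert_of_mem hj)) hν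
      (hs i (Finset.mem_insert_self _ _))
      (ih (fun j hj => h j (Finset.mem_insert_of_mem hj))
        (fun j hj => hs j (Finset.mem_insert_of_mem hj)))

/-- positive functionals that are not singular have a common positive minorant -/
theorem exists_minorant {μ ν : DL N} (hμ : Pos μ) (hν : Pos ν) (h : ¬ Sing μ ν) :
    ∃ w : DL N, Pos w ∧ Pos (μ - w) ∧ Pos (ν - w) ∧ w ≠ 0 := by
  rw [Sing] at h
  push Not at h
  obtain ⟨ε, hε, hs⟩ := h
  let S : Linf N → Set ℝ := fun f => {t | ∃ a b : Linf N, (∀ n, 0 ≤ a n) ∧ (∀ n, 0 ≤ b n) ∧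
    (∀ n, f n ≤ a n + b n) ∧ t = μ a + ν b}
  let p : Linf N → ℝ := fun f => sInf (S f)
  have hpos : ∀ f, ∀ t ∈ S f, 0 ≤ t := by
    rintro f _ ⟨a, b, ha, hb, _, rfl⟩
    exact add_nonneg (hμ a ha) (hν b hb)
  have hbdd : ∀ f, BddBelow (S f) := fun f => ⟨0, hpos f⟩
  have hne : ∀ f, (S f).Nonempty := fun f => by
    refine ⟨_, ‖f‖ • 1, 0, fun n => ?_, fun n => le_rfl, fun n => ?_, rfl⟩
    · rw [lp.coeFn_smul, Pi.smul_apply, linf_one_apply, smul_eq_mul, mul_one]
      exact norm_nonneg _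
    · rw [lp.coeFn_smul, Pi.smul_apply, linf_one_apply, smul_eq_mul, mul_one]
      change f n ≤ ‖f‖ + 0
      rw [add_zero]
      exact (le_abs_self _).trans (linf_apply_le f n)
  have hp0 : ∀ f, 0 ≤ p f := fun f => le_csInf (hne f) (hpos f)
  have hple : ∀ f a b : Linf N, (∀ n, 0 ≤ a n) → (∀ n, 0 ≤ b n) → (∀ n, f n ≤ a n + b n) →
      p f ≤ μ a + ν b := fun f a b ha hb hf => csInf_le (hbdd f) ⟨a, b, ha, hb, hf, rfl⟩
  have hadd : ∀ f g, p (f + g) ≤ p f + p g := by
    intro f g
    refine le_of_forall_pos_le_add fun η hη => ?_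
    obtain ⟨_, ⟨a, b, ha, hb, hf, rfl⟩, h1⟩ := exists_lt_of_csInf_lt (hne f)
      (show sInf (S f) < p f + η / 2 by change p f < _; linarith)
    obtain ⟨_, ⟨a', b', ha', hb', hg, rfl⟩, h2⟩ := exists_lt_of_csInf_lt (hne g)
      (show sInf (S g) < p g + η / 2 by change p g < _; linarith)
    have h3 := hple (f + g) (a + a') (b + b') (fun n => add_nonneg (ha n) (ha' n))
      (fun n => add_nonneg (hb n) (hb' n)) (fun n => by
        simp only [lp.coeFn_add, Pi.add_apply]
        linarith [hf n, hg n])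
    rw [map_add, map_add] at h3
    linarith
  have hhom' : ∀ c : ℝ, 0 < c → ∀ f, p (c • f) ≤ c * p f := by
    intro c hc f
    rw [← div_le_iff₀' hc]
    refine le_csInf (hne f) ?_
    rintro _ ⟨a, b, ha, hb, hf, rfl⟩
    rw [div_le_iff₀' hc]
    have h3 := hple (c • f) (c • a) (c • b) (fun n => mul_nonneg hc.le (ha n))
      (fun n => mul_nonneg hc.le (hb n)) (fun n => by
        simp only [lp.coeFn_smul, Pi.smul_apply, smul_eq_mul]
        nlinarith [hf n])
    rw [map_smul, map_smul, smul_eq_mul, smul_eq_mul] at h3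
    linarith
  have hhom : ∀ c : ℝ, 0 < c → ∀ f, p (c • f) = c * p f := by
    intro c hc f
    refine le_antisymm (hhom' c hc f) ?_
    have h1 := hhom' c⁻¹ (inv_pos.mpr hc) (c • f)
    rw [smul_smul, inv_mul_cancel₀ hc.ne', one_smul] at h1
    rw [← le_inv_mul_iff₀ hc]
    exact h1
  -- value at one
  have hp1 : ε ≤ p 1 := by
    refine le_csInf (hne 1) ?_
    rintro _ ⟨a, b, ha, hb, hf, rfl⟩
    let g : Linf N := ⟨fun n => min (a n) 1, memℓp_infty ⟨1, by
      rintro _ ⟨n, rfl⟩
      simp only [Real.norm_eq_abs]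
      rw [abs_of_nonneg (le_min (ha n) zero_le_one)]
      exact min_le_right _ _⟩⟩
    have hg : ∀ n, g n = min (a n) 1 := fun n => rfl
    have hg1 : Unit01 g := fun n => by
      rw [hg]
      exact ⟨le_min (ha n) zero_le_one, min_le_right _ _⟩
    have h1 : μ g ≤ μ a := hμ.mono fun n => by rw [hg]; exact min_le_left _ _
    have h2 : ν (1 - g) ≤ ν b := hν.mono fun n => by
      rw [lp.coeFn_sub, Pi.sub_apply, linf_one_apply, hg]
      have := hf n
      rw [linf_one_apply] at this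
      rcases le_total (a n) 1 with h3 | h3
      · rw [min_eq_left h3]; linarith
      · rw [min_eq_right h3]; linarith [hb n]
    have h3 := hν (1 - g) (fun n => (hg1.compl n).1)
    have h4 := hμ g (fun n => (hg1 n).1)
    by_cases h5 : μ g ≤ ε
    · have := hs g hg1 h5
      linarith
    · push Not at h5
      linarith
  -- Hahn-Banach
  let f0 : Linf N →ₗ.[ℝ] ℝ := LinearPMap.mkSpanSingleton (1 : Linf N) (p 1) (by
    intro h
    have : Nonempty N := by
      by_contra hN
      rw [not_nonempty_iff] at hN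
      have h1 : (1 : Linf N) = 0 := lp.ext (funext fun n => (hN.false n).elim)
      have h2 := hple 1 0 0 (fun n => le_rfl) (fun n => le_rfl) (fun n => (hN.false n).elim)
      rw [map_zero, map_zero, add_zero] at h2
      linarith
    obtain ⟨n⟩ := this
    have h1 := congrFun (congrArg (fun f : Linf N => (f : N → ℝ)) h) n
    simp only [linf_one_apply] at h1
    exact one_ne_zero h1)
  obtain ⟨w0, hw1, hw2⟩ := exists_extension_of_le_sublinear f0 p hhom hadd (by
    rintro ⟨x, hx⟩
    obtain ⟨c, rfl⟩ := Submodule.mem_span_singleton.mp hx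
    have h1 : f0 ⟨c • 1, hx⟩ = c • p 1 := LinearPMap.mkSpanSingleton'_apply _ _ _ _ _
    rw [h1, smul_eq_mul]
    rcases lt_trichotomy c 0 with hc | hc | hc
    · have : 0 ≤ p (c • (1 : Linf N)) := hp0 _
      have : c * p 1 ≤ 0 := mul_nonpos_of_nonpos_of_nonneg hc.le (hp0 1)
      change c * p 1 ≤ p (c • (1 : Linf N))
      linarith
    · subst hc
      rw [zero_mul]
      exact hp0 _
    · exact (hhom c hc 1).ge)
  have hw1' : w0 1 = p 1 := by
    have h1 := hw1 ⟨1, Submodule.mem_span_singleton_self 1⟩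
    have h2 : f0 ⟨1, Submodule.mem_span_singleton_self 1⟩ = p 1 :=
      LinearPMap.mkSpanSingleton'_apply_self _ _ _ _
    rw [← h2, ← h1]
  have hwpos : ∀ f : Linf N, (∀ n, 0 ≤ f n) → 0 ≤ w0 f := by
    intro f hf
    have h1 := hw2 (-f)
    have h2 := hple (-f) 0 0 (fun n => le_rfl) (fun n => le_rfl) (fun n => by
      rw [lp.coeFn_neg, Pi.neg_apply, lp.coeFn_zero, Pi.zero_apply]
      linarith [hf n])
    rw [map_zero, map_zero, add_zero] at h2
    rw [map_neg] at h1
    linarith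
  have hwmono : ∀ f g : Linf N, (∀ n, f n ≤ g n) → w0 f ≤ w0 g := by
    intro f g hfg
    have h1 := hwpos (g - f) (fun n => by
      rw [lp.coeFn_sub, Pi.sub_apply]
      linarith [hfg n])
    rw [map_sub] at h1
    linarith
  have hwb : ∀ f : Linf N, ‖w0 f‖ ≤ p 1 * ‖f‖ := by
    intro f
    have h1 : ∀ n, |f n| ≤ (‖f‖ • (1 : Linf N)) n := fun n => by
      rw [lp.coeFn_smul, Pi.smul_apply, linf_one_apply, smul_eq_mul, mul_one]
      exact linf_apply_le f n
    have h2 : w0 f ≤ w0 (‖f‖ • (1 : Linf N)) := hwmono _ _ fun n => (le_abs_self _).trans (h1 n)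
    have h3 : w0 (-f) ≤ w0 (‖f‖ • (1 : Linf N)) := hwmono _ _ fun n => by
      rw [lp.coeFn_neg, Pi.neg_apply]
      exact (neg_le_abs _).trans (h1 n)
    rw [map_smul, smul_eq_mul, hw1'] at h2 h3
    rw [map_neg] at h3
    rw [Real.norm_eq_abs, abs_le]
    constructor <;> nlinarith
  let w : DL N := w0.mkContinuous (p 1) hwb
  have hw : ∀ f, w f = w0 f := fun f => rfl
  refine ⟨w, hwpos, ?_, ?_, ?_⟩
  · intro f hf
    rw [sub_apply, hw]
    have h1 := hw2 f
    have h2 := hple f f 0 hf (fun n => le_rfl) (fun n => by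
      rw [lp.coeFn_zero, Pi.zero_apply, add_zero])
    rw [map_zero, add_zero] at h2
    linarith
  · intro f hf
    rw [sub_apply, hw]
    have h1 := hw2 f
    have h2 := hple f 0 f (fun n => le_rfl) hf (fun n => by
      rw [lp.coeFn_zero, Pi.zero_apply, zero_add])
    rw [map_zero, zero_add] at h2
    linarith
  · intro h0
    have h1 : w 1 = 0 := by rw [h0]; rfl
    rw [hw, hw1'] at h1
    linarith

end Sing

end Pool.Agent.Helper893.V
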