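import Mathlib
import Pool.Agent.Helper893.V.Sing

open scoped ENNReal BigOperators Topology
open Filter

namespace Pool.Agent.Helper893.V

section Abs

/-- An operator from a pre-Hilbert space produces a countably supported generating set of the
closure of its range. -/
theorem exists_gen_aux {V Y : Type*} [SeminormedAddCommGroup V] [InnerProductSpace ℝ V]
    [NormedAddCommGroup Y] [NormedSpace ℝ Y] [CompleteSpace Y] (T : V →L[ℝ] Y) :
    ∃ D : Set Y, (D ⊆ (LinearMap.range T.toLinearMap).topologicalClosure) ∧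
      (∀ v, T v ∈ (Submodule.span ℝ D).topologicalClosure) ∧
      ∀ φ : Y →L[ℝ] ℝ, {d | d ∈ D ∧ φ d ≠ 0}.Countable := by
  classical
  let H := UniformSpace.Completion V
  let ι : V →L[ℝ] H := UniformSpace.Completion.toComplL
  have hd : DenseRange ι := UniformSpace.Completion.denseRange_coe
  have hu : IsUniformInducing ι := UniformSpace.Completion.isUniformInducing_coe V
  let J : H →L[ℝ] Y := T.extend ι
  have hJ : ∀ v, J (ι v) = T v := fun v => T.extend_eq hd hu v
  obtain ⟨w, b, hb⟩ := exists_hilbertBasis ℝ H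
  have hJr : ∀ x, J x ∈ (LinearMap.range T.toLinearMap).topologicalClosure := by
    intro x
    have hcl : IsClosed {x : H | J x ∈ (LinearMap.range T.toLinearMap).topologicalClosure} :=
      (Submodule.isClosed_topologicalClosure _).preimage J.continuous
    refine hd.induction_on (p := fun x => J x ∈ (LinearMap.range T.toLinearMap).topologicalClosure)
      x hcl ?_
    intro v
    rw [hJ]
    exact Submodule.le_topologicalClosure _ ⟨v, rfl⟩
  refine ⟨J '' w, ?_, ?_, ?_⟩
  · rintro _ ⟨x, _, rfl⟩
    exact hJr x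
  · intro v
    rw [← hJ]
    have h1 : (Submodule.span ℝ (Set.range b)).topologicalClosure ≤
        ((Submodule.span ℝ (J '' w)).topologicalClosure).comap J.toLinearMap := by
      refine Submodule.topologicalClosure_minimal _ ?_
        ((Submodule.isClosed_topologicalClosure _).preimage J.continuous)
      rw [Submodule.span_le]
      rintro _ ⟨i, rfl⟩
      rw [hb]
      exact Submodule.le_topologicalClosure _ (Submodule.subset_span ⟨i, i.2, rfl⟩)
    rw [b.dense_span] at h1
    exact h1 (Submodule.mem_top : ι v ∈ ⊤)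
  · intro φ
    let ψ : H →L[ℝ] ℝ := φ.comp J
    let h : H := (InnerProductSpace.toDual ℝ H).symm ψ
    have hψ : ∀ x, ψ x = inner ℝ h x := by
      intro x
      rw [← InnerProductSpace.toDual_symm_apply]
    have hsum : Summable fun i : w => ‖inner ℝ (b i) h‖ ^ 2 := b.orthonormal.inner_products_summable h
    have hc : (Function.support fun i : w => ‖inner ℝ (b i) h‖ ^ 2).Countable :=
      hsum.countable_support
    refine (hc.image (fun i : w => J i)).mono ?_
    rintro _ ⟨⟨x, hx, rfl⟩, hne⟩
    refine ⟨⟨x, hx⟩, ?_, rfl⟩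
    rw [Function.mem_support]
    intro h0
    apply hne
    change ψ x = 0
    rw [hψ]
    have h2 : inner ℝ (b ⟨x, hx⟩) h = 0 := by
      have := pow_eq_zero_iff (two_ne_zero) |>.mp h0
      exact norm_eq_zero.mp this
    rw [hb] at h2
    rw [real_inner_comm]
    exact h2

theorem exists_gen {V Y : Type*} [AddCommGroup V] [Module ℝ V] (cd : PreInnerProductSpace.Core ℝ V)
    [NormedAddCommGroup Y] [NormedSpace ℝ Y] [CompleteSpace Y] (T : V →ₗ[ℝ] Y) (C : ℝ)
    (hT : ∀ v, ‖T v‖ ≤ C * √(cd.inner v v)) :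
    ∃ D : Set Y, (D ⊆ (LinearMap.range T).topologicalClosure) ∧
      (∀ v, T v ∈ (Submodule.span ℝ D).topologicalClosure) ∧
      ∀ φ : Y →L[ℝ] ℝ, {d | d ∈ D ∧ φ d ≠ 0}.Countable := by
  let _ : SeminormedAddCommGroup V :=
    @InnerProductSpace.Core.toSeminormedAddCommGroup ℝ V _ _ _ cd
  let _ : InnerProductSpace ℝ V := InnerProductSpace.ofCore cd
  let T' : V →L[ℝ] Y := T.mkContinuous C (fun v => hT v)
  exact exists_gen_aux T'

end Abs

section GNS

variable {N : Type}

/-- The pre-inner product attached to a positive functional. -/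
@[reducible]
noncomputable def core (μ : DL N) (hμ : Pos μ) : PreInnerProductSpace.Core ℝ (Linf N) where
  inner := fun f g => μ (f * g)
  conj_inner_symm := fun f g => by
    simp only [conj_trivial]
    rw [mul_comm]
  re_inner_nonneg := fun f => by
    simp only [RCLike.re_to_real]
    exact hμ _ (fun n => by rw [linf_mul_apply]; exact mul_self_nonneg _)
  add_left := fun f g h => by rw [add_mul, map_add]
  smul_left := fun f g r => by
    rw [smul_mul_assoc, map_smul]
    simp

theorem cauchy_schwarz (μ : DL N) (hμ : Pos μ) (f g : Linf N) :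
    |μ (f * g)| ≤ √(μ (f * f)) * √(μ (g * g)) := by
  have h := @InnerProductSpace.Core.norm_inner_le_norm ℝ (Linf N) _ _ _ (core μ hμ) f g
  exact h

theorem norm_mulL_le (μ : DL N) (hμ : Pos μ) (f : Linf N) :
    ‖mulL μ f‖ ≤ √(μ 1) * √(μ (f * f)) := by
  refine ContinuousLinearMap.opNorm_le_of_unit_norm (by positivity) ?_
  intro g hg
  rw [mulL_apply]
  refine (cauchy_schwarz μ hμ f g).trans ?_
  rw [mul_comm]
  refine mul_le_mul_of_nonneg_right (Real.sqrt_le_sqrt ?_) (Real.sqrt_nonneg _)
  refine hμ.mono fun n => ?_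
  rw [linf_mul_apply, linf_one_apply]
  have h1 := (linf_apply_le g n).trans hg.le
  nlinarith [abs_nonneg (g n), sq_abs (g n)]

theorem exists_gen_LL (μ : DL N) (hμ : Pos μ) :
    ∃ D : Set (DL N), (D ⊆ LL μ) ∧ LL μ ≤ (Submodule.span ℝ D).topologicalClosure ∧
      ∀ φ : DL N →L[ℝ] ℝ, {d | d ∈ D ∧ φ d ≠ 0}.Countable := by
  obtain ⟨D, h1, h2, h3⟩ := exists_gen (core μ hμ) (mulL μ) (√(μ 1)) (norm_mulL_le μ hμ)
  refine ⟨D, h1, ?_, h3⟩
  refine Submodule.topologicalClosure_minimal _ ?_ (Submodule.isClosed_topologicalClosure _)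
  rintro _ ⟨f, rfl⟩
  exact h2 f

end GNS

end Pool.Agent.Helper893.V
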