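import Mathlib
import Pool.Agent.Helper893.V.Sing

open scoped ENNReal BigOperators Topology
open Filter

namespace Pool.Agent.Helper893.V

section MaxFam

variable {N : Type}

/-- Greedy exhaustion: a positive functional outside a closed subspace `E` has a nonzero positive
part no nonzero positive minorant of which lies in `E`. -/
theorem exists_residue (E : Submodule ℝ (DL N)) (hE : IsClosed (E : Set (DL N))) {ρ : DL N}
    (hρ : Pos ρ) (hρE : ρ ∉ E) :
    ∃ τ : DL N, Pos τ ∧ τ ∉ E ∧ ∀ w ∈ E, Pos w → Pos (τ - w) → w = 0 := by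
  classical
  let A : DL N → Set ℝ := fun σ => {t | ∃ u ∈ E, Pos u ∧ Pos (σ - u) ∧ t = u 1}
  have hAb : ∀ σ, BddAbove (A σ) := by
    intro σ
    refine ⟨σ 1, ?_⟩
    rintro _ ⟨u, _, _, hu, rfl⟩
    have := hu.one_nonneg
    rw [sub_apply] at this
    linarith
  have hAn : ∀ σ, Pos σ → (A σ).Nonempty := fun σ hσ =>
    ⟨0, 0, E.zero_mem, Pos.zero, by rwa [sub_zero], rfl⟩
  let s : DL N → ℝ := fun σ => sSup (A σ)
  have hs0 : ∀ σ, Pos σ → 0 ≤ s σ := fun σ hσ =>
    le_csSup (hAb σ) ⟨0, E.zero_mem, Pos.zero, by rwa [sub_zero], rfl⟩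
  have hex : ∀ σ : {σ : DL N // Pos σ}, ∃ u ∈ E, Pos u ∧ Pos (σ.1 - u) ∧ s σ.1 / 2 ≤ u 1 := by
    rintro ⟨σ, hσ⟩
    rcases (hs0 σ hσ).eq_or_lt with h | h
    · refine ⟨0, E.zero_mem, Pos.zero, by rwa [sub_zero], ?_⟩
      change s σ / 2 ≤ (0 : DL N) 1
      rw [← h]
      simp
    · obtain ⟨_, ⟨u, h1, h2, h3, rfl⟩, h4⟩ := exists_lt_of_lt_csSup (hAn σ hσ)
        (show s σ / 2 < sSup (A σ) by change s σ / 2 < s σ; linarith)
      exact ⟨u, h1, h2, h3, h4.le⟩
  choose u hu1 hu2 hu3 hu4 using hex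
  let r : ℕ → {σ : DL N // Pos σ} := fun n =>
    Nat.rec ⟨ρ, hρ⟩ (fun _ σ => ⟨σ.1 - u σ, hu3 σ⟩) n
  have hr0 : (r 0).1 = ρ := rfl
  have hrs : ∀ n, (r (n + 1)).1 = (r n).1 - u (r n) := fun n => rfl
  have hsum : ∀ n, ∑ i ∈ Finset.range n, (u (r i)) 1 = ρ 1 - (r n).1 1 := by
    intro n
    induction n with
    | zero => rw [Finset.sum_range_zero, hr0, sub_self]
    | succ n ih =>
      rw [Finset.sum_range_succ, ih, hrs, sub_apply]
      ring
  have hsummable : Summable (fun n => (u (r n)) 1) := by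
    refine summable_of_sum_range_le (c := ρ 1) (fun n => (hu2 _).one_nonneg) ?_
    intro n
    rw [hsum]
    linarith [(r n).2.one_nonneg]
  have hcauchy : CauchySeq (fun n => (r n).1) := by
    refine cauchySeq_of_dist_le_of_summable (fun n => (u (r n)) 1) (fun n => ?_) hsummable
    rw [hrs, dist_eq_norm, sub_sub_cancel]
    exact (hu2 _).norm_le
  obtain ⟨τ, hτ⟩ := cauchySeq_tendsto_of_complete hcauchy
  have hle : ∀ n m, Pos ((r n).1 - (r (n + m)).1) := by
    intro n m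
    induction m with
    | zero => rw [add_zero, sub_self]; exact Pos.zero
    | succ m ih =>
      have h1 : (r n).1 - (r (n + (m + 1))).1 = ((r n).1 - (r (n + m)).1) + u (r (n + m)) := by
        rw [← add_assoc, hrs]
        abel
      rw [h1]
      exact ih.add (hu2 _)
  have hpos : Pos τ := isClosed_Pos.mem_of_tendsto hτ (Eventually.of_forall fun n => (r n).2)
  have hmem : ∀ n, ρ - (r n).1 ∈ E := by
    intro n
    induction n with
    | zero => rw [hr0, sub_self]; exact E.zero_mem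
    | succ n ih =>
      have h1 : ρ - (r (n + 1)).1 = (ρ - (r n).1) + u (r n) := by
        rw [hrs]; abel
      rw [h1]
      exact E.add_mem ih (hu1 _)
  have hmem' : ρ - τ ∈ E := hE.mem_of_tendsto (tendsto_const_nhds.sub hτ)
    (Eventually.of_forall hmem)
  have hnle : ∀ n, Pos ((r n).1 - τ) := by
    intro n
    refine isClosed_Pos.mem_of_tendsto (tendsto_const_nhds.sub hτ) ?_
    filter_upwards [eventually_ge_atTop n] with m hm
    obtain ⟨k, rfl⟩ := Nat.exists_eq_add_of_le hm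
    exact hle n k
  refine ⟨τ, hpos, ?_, ?_⟩
  · intro h
    apply hρE
    have := E.add_mem hmem' h
    rwa [sub_add_cancel] at this
  · intro w hw hwp hwt
    apply hwp.eq_zero
    have h1 : ∀ n, w 1 ≤ 2 * (u (r n)) 1 := by
      intro n
      have h2 : w 1 ≤ s (r n).1 := by
        refine le_csSup (hAb _) ⟨w, hw, hwp, ?_, rfl⟩
        have h3 : (r n).1 - w = ((r n).1 - τ) + (τ - w) := by abel
        rw [h3]
        exact (hnle n).add hwt
      linarith [hu4 (r n)]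
    have h2 : Tendsto (fun n => 2 * (u (r n)) 1) atTop (𝓝 (2 * 0)) :=
      hsummable.tendsto_atTop_zero.const_mul 2
    rw [mul_zero] at h2
    exact ge_of_tendsto' h2 h1

/-- A maximal family of pairwise singular positive functionals generates the whole dual. -/
theorem exists_family (N : Type) : ∃ S : Set (DL N), (∀ μ ∈ S, Pos μ) ∧
    (∀ μ ∈ S, ∀ ν ∈ S, μ ≠ ν → Sing μ ν) ∧
    (⨆ μ : S, LL (μ : DL N)).topologicalClosure = ⊤ := by
  classical
  obtain ⟨S, hS⟩ := zorn_subset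
    {S : Set (DL N) | (∀ μ ∈ S, Pos μ) ∧ ∀ μ ∈ S, ∀ ν ∈ S, μ ≠ ν → Sing μ ν} (by
    intro c hc hchain
    refine ⟨⋃₀ c, ⟨?_, ?_⟩, fun s hs => Set.subset_sUnion_of_mem hs⟩
    · rintro μ ⟨s, hs, hμ⟩
      exact (hc hs).1 μ hμ
    · rintro μ ⟨s, hs, hμ⟩ ν ⟨t, ht, hν⟩ hne
      rcases hchain.total hs ht with h | h
      · exact (hc ht).2 μ (h hμ) ν hν hne
      · exact (hc hs).2 μ hμ ν (h hν) hne)
  obtain ⟨hS1, hS2⟩ := hS.prop
  refine ⟨S, hS1, hS2, ?_⟩
  set E : Submodule ℝ (DL N) := (⨆ μ : S, LL (μ : DL N)).topologicalClosure with hEdef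
  have hEc : IsClosed (E : Set (DL N)) := Submodule.isClosed_topologicalClosure _
  have hLLE : ∀ μ ∈ S, LL μ ≤ E := fun μ hμ =>
    (le_iSup (fun μ : S => LL (μ : DL N)) ⟨μ, hμ⟩).trans (Submodule.le_topologicalClosure _)
  have hmod : ∀ ν ∈ E, ∀ f, mulL ν f ∈ E := by
    intro ν hν f
    have h1 : E ≤ E.comap (mulR f : DL N →ₗ[ℝ] DL N) := by
      refine Submodule.topologicalClosure_minimal _ ?_ (hEc.preimage (mulR f).continuous)
      refine iSup_le ?_
      rintro ⟨μ, hμ⟩ x hx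
      rw [Submodule.mem_comap]
      exact hLLE μ hμ (LL_module μ x hx f)
    exact h1 hν
  have hpos : ∀ ρ : DL N, Pos ρ → ρ ∈ E := by
    intro ρ hρ
    by_contra hρE
    obtain ⟨τ, hτ, hτE, hτw⟩ := exists_residue E hEc hρ hρE
    have hsing : ∀ μ ∈ S, Sing μ τ := by
      intro μ hμ
      by_contra hcon
      obtain ⟨w, hw1, hw2, hw3, hw4⟩ := exists_minorant (hS1 μ hμ) hτ hcon
      exact hw4 (hτw w (hLLE μ hμ (mem_LL_of_le (hS1 μ hμ) hw1 hw2)) hw1 hw3)
    have hins : insert τ S ∈ {S : Set (DL N) | (∀ μ ∈ S, Pos μ) ∧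
        ∀ μ ∈ S, ∀ ν ∈ S, μ ≠ ν → Sing μ ν} := by
      constructor
      · rintro μ (rfl | hμ)
        · exact hτ
        · exact hS1 μ hμ
      · rintro μ (rfl | hμ) ν (rfl | hν) hne
        · exact absurd rfl hne
        · exact (hsing ν hν).symm
        · exact hsing μ hμ
        · exact hS2 μ hμ ν hν hne
    have hmem : τ ∈ S := hS.le_of_ge hins (Set.subset_insert _ _) (Set.mem_insert _ _)
    exact hτE (hLLE τ hmem (self_mem_LL τ))
  rw [eq_top_iff]
  intro ν _
  obtain ⟨ρ, hρ1, _⟩ := exists_majorant ν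
  have hρ2 : Pos ρ := Pos.of_majorant hρ1
  exact LL_le_of_mem hEc hmod (hpos ρ hρ2)
    (mem_LL_of_dom hρ2 zero_le_one (fun f h hfh => by rw [one_mul]; exact hρ1 f h hfh))

end MaxFam

end Pool.Agent.Helper893.V
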