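import Mathlib
import Pool.Agent.Helper893.V.MaxFam
import Pool.Agent.Helper893.V.GNS

open scoped ENNReal BigOperators Topology
open Filter

namespace Pool.Agent.Helper893.V

section Weak

/-- weak-star limits along ultrafilters -/
theorem exists_weakstar_limit {E ι : Type*} [NormedAddCommGroup E] [NormedSpace ℝ E]
    (U : Ultrafilter ι) (F : ι → E →L[ℝ] ℝ) (hF : ∀ i, ‖F i‖ ≤ 1) :
    ∃ φ : E →L[ℝ] ℝ, ‖φ‖ ≤ 1 ∧ ∀ y, Tendsto (fun i => F i y) (U : Filter ι) (𝓝 (φ y)) := by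
  let Φ : ι → WeakDual ℝ E := fun i => StrongDual.toWeakDual (F i)
  have hK := WeakDual.isCompact_closedBall (𝕜 := ℝ) (E := E) 0 1
  have hmem : ∀ i, Φ i ∈ WeakDual.toStrongDual ⁻¹' Metric.closedBall
      (0 : StrongDual ℝ E) 1 := by
    intro i
    rw [Set.mem_preimage, mem_closedBall_zero_iff]
    exact hF i
  obtain ⟨φ, hφK, hφ⟩ := hK.ultrafilter_le_nhds (Ultrafilter.map Φ U) (by
    rw [le_principal_iff]
    exact Filter.mem_map.2 (Filter.univ_mem' hmem))
  refine ⟨WeakDual.toStrongDual φ, by simpa using hφK, ?_⟩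
  intro y
  have h1 : Tendsto Φ (U : Filter ι) (𝓝 φ) := hφ
  have h2 := (WeakDual.eval_continuous (𝕜 := ℝ) (E := E) y).tendsto φ
  exact h2.comp h1

end Weak

section Norming

variable {N : Type}

/-- The key norming lemma: for finitely many members of a pairwise singular family, evaluation at a
function can be cut down to a functional which ignores all other members. -/
theorem exists_cut (S : Set (DL N)) (hS1 : ∀ μ ∈ S, Pos μ)
    (hS2 : ∀ μ ∈ S, ∀ ν ∈ S, μ ≠ ν → Sing μ ν) (R : Finset (DL N)) (hR : (R : Set (DL N)) ⊆ S)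
    (a : Linf N) (ha : ‖a‖ ≤ 1) :
    ∃ φ : DL N →L[ℝ] ℝ, ‖φ‖ ≤ 1 ∧ (∀ μ ∈ R, ∀ y ∈ LL μ, φ y = y a) ∧
      ∀ ν ∈ S, ν ∉ R → ∀ y ∈ LL ν, φ y = 0 := by
  classical
  let ι := Finset (DL N) × ℕ
  have hgex : ∀ i : ι, ∃ g : Linf N, Unit01 g ∧
      (∑ ν ∈ i.1.filter (fun ν => ν ∈ S ∧ ν ∉ R), ν) g ≤ 1 / ((i.2 : ℝ) + 1) ∧
      (∑ μ ∈ R, μ) (1 - g) ≤ 1 / ((i.2 : ℝ) + 1) := by
    intro i
    have h1 : Sing (∑ ν ∈ i.1.filter (fun ν => ν ∈ S ∧ ν ∉ R), ν) (∑ μ ∈ R, μ) := by
      refine Sing.sum_left _ _ _ (fun ν hν => hS1 ν (Finset.mem_filter.mp hν).2.1)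
        (Pos.sum _ _ fun μ hμ => hS1 μ (hR hμ)) ?_
      intro ν hν
      obtain ⟨_, hν1, hν2⟩ := Finset.mem_filter.mp hν
      refine Sing.symm (Sing.sum_left _ _ _ (fun μ hμ => hS1 μ (hR hμ)) (hS1 ν hν1) ?_)
      intro μ hμ
      refine hS2 μ (hR hμ) ν hν1 ?_
      rintro rfl
      exact hν2 hμ
    exact h1 (1 / ((i.2 : ℝ) + 1)) (by positivity)
  choose g hg1 hg2 hg3 using hgex
  -- functionals on the dual
  let ev : Linf N →L[ℝ] (DL N →L[ℝ] ℝ) := ContinuousLinearMap.apply ℝ ℝ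
  have hev : ∀ b ν, ev b ν = ν b := fun b ν => rfl
  have hevn : ∀ b, ‖ev b‖ ≤ ‖b‖ := by
    intro b
    refine ContinuousLinearMap.opNorm_le_bound _ (norm_nonneg _) fun ν => ?_
    rw [hev, mul_comm]
    exact ν.le_opNorm b
  have hag : ∀ i, ‖a * g i‖ ≤ 1 := by
    intro i
    refine linf_norm_le zero_le_one fun n => ?_
    rw [linf_mul_apply, abs_mul]
    have h1 := (linf_apply_le a n).trans ha
    have h2 : |g i n| ≤ 1 := by
      rw [abs_of_nonneg (hg1 i n).1]
      exact (hg1 i n).2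
    exact mul_le_one₀ h1 (abs_nonneg _) h2
  let U : Ultrafilter ι := Ultrafilter.of atTop
  have hU : (U : Filter ι) ≤ atTop := Ultrafilter.of_le _
  obtain ⟨ψ, hψn, hconv⟩ := exists_weakstar_limit U (fun i => ev (a * g i))
    (fun i => (hevn _).trans (hag i))
  simp only [hev] at hconv
  have hk0 : Tendsto (fun i : ι => 1 / ((i.2 : ℝ) + 1)) atTop (𝓝 0) := by
    have h1 : Tendsto (fun i : ι => i.2) atTop atTop := by
      rw [← prod_atTop_atTop_eq]
      exact tendsto_snd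
    exact (tendsto_one_div_add_atTop_nhds_zero_nat (𝕜 := ℝ)).comp h1
  have hbd : ∀ (ν : DL N), Pos ν → ∀ b c : Linf N, (∀ n, 0 ≤ c n) → |ν (b * c)| ≤ ‖b‖ * ν c := by
    intro ν hν b c hc
    have h1 : ∀ n, |b n| ≤ ‖b‖ := linf_apply_le b
    have h2 : ν (b * c) ≤ ν (‖b‖ • c) := hν.mono fun n => by
      rw [linf_mul_apply, lp.coeFn_smul, Pi.smul_apply, smul_eq_mul]
      exact mul_le_mul_of_nonneg_right ((le_abs_self _).trans (h1 n)) (hc n)
    have h3 : ν (-(b * c)) ≤ ν (‖b‖ • c) := hν.mono fun n => by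
      rw [lp.coeFn_neg, Pi.neg_apply, linf_mul_apply, lp.coeFn_smul, Pi.smul_apply, smul_eq_mul,
        ← neg_mul]
      exact mul_le_mul_of_nonneg_right ((neg_le_abs _).trans (h1 n)) (hc n)
    rw [map_smul, smul_eq_mul] at h2 h3
    rw [map_neg] at h3
    exact abs_le.mpr ⟨by linarith, h2⟩
  refine ⟨ψ, ?_, ?_, ?_⟩
  · exact hψn
  · intro μ hμ
    have hμp : Pos μ := hS1 μ (hR hμ)
    have hker : LL μ ≤ LinearMap.ker ((ψ - ev a : DL N →L[ℝ] ℝ) : DL N →ₗ[ℝ] ℝ) := by
      refine Submodule.topologicalClosure_minimal _ ?_ (ContinuousLinearMap.isClosed_ker _)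
      rintro _ ⟨f, rfl⟩
      rw [LinearMap.mem_ker]
      change ψ (mulL μ f) - ev a (mulL μ f) = 0
      rw [hev, mulL_apply, sub_eq_zero]
      refine tendsto_nhds_unique (hconv (mulL μ f)) ?_
      refine Tendsto.mono_left ?_ hU
      rw [tendsto_iff_norm_sub_tendsto_zero]
      have hle : ∀ i : ι, ‖mulL μ f (a * g i) - μ (f * a)‖ ≤ ‖f * a‖ * (1 / ((i.2 : ℝ) + 1)) := by
        intro i
        have h1 : mulL μ f (a * g i) - μ (f * a) = -(μ ((f * a) * (1 - g i))) := by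
          rw [mulL_apply, mul_sub, mul_one, map_sub, ← mul_assoc]
          ring
        rw [h1, norm_neg, Real.norm_eq_abs]
        refine (hbd μ hμp (f * a) (1 - g i) (fun n => ((hg1 i).compl n).1)).trans ?_
        refine mul_le_mul_of_nonneg_left ?_ (norm_nonneg _)
        refine le_trans ?_ (hg3 i)
        rw [sum_apply]
        exact Finset.single_le_sum (f := fun μ : DL N => μ (1 - g i))
          (fun μ' hμ' => hS1 μ' (hR hμ') _ (fun n => ((hg1 i).compl n).1)) hμ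
      have h3 := hk0.const_mul ‖f * a‖
      rw [mul_zero] at h3
      exact squeeze_zero (fun i => norm_nonneg _) hle h3
    intro y hy
    have := hker hy
    rw [LinearMap.mem_ker] at this
    change ψ y - ev a y = 0 at this
    rw [hev] at this
    linarith
  · intro ν hν hνR
    have hνp : Pos ν := hS1 ν hν
    have hker : LL ν ≤ LinearMap.ker (ψ : DL N →ₗ[ℝ] ℝ) := by
      refine Submodule.topologicalClosure_minimal _ ?_ (ContinuousLinearMap.isClosed_ker _)
      rintro _ ⟨f, rfl⟩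
      rw [LinearMap.mem_ker]
      change ψ (mulL ν f) = 0
      refine tendsto_nhds_unique (hconv (mulL ν f)) ?_
      refine Tendsto.mono_left ?_ hU
      have h3 := hk0.const_mul ‖f * a‖
      rw [mul_zero] at h3
      refine squeeze_zero_norm' ?_ h3
      filter_upwards [eventually_ge_atTop (({ν}, 0) : ι)] with i hi
      have hνi : ν ∈ i.1.filter (fun ν => ν ∈ S ∧ ν ∉ R) := by
        rw [Finset.mem_filter]
        exact ⟨hi.1 (Finset.mem_singleton_self ν), hν, hνR⟩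
      rw [mulL_apply, Real.norm_eq_abs, ← mul_assoc]
      refine (hbd ν hνp (f * a) (g i) (fun n => (hg1 i n).1)).trans ?_
      refine mul_le_mul_of_nonneg_left ?_ (norm_nonneg _)
      refine le_trans ?_ (hg2 i)
      rw [sum_apply]
      exact Finset.single_le_sum (f := fun μ : DL N => μ (g i))
        (fun μ' hμ' => hS1 μ' (Finset.mem_filter.mp hμ').2.1 _ (fun n => (hg1 i n).1)) hνi
    intro y hy
    exact hker hy

end Norming

end Pool.Agent.Helper893.V
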