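import Mathlib
import Pool.Agent.Helper893.V.Norming
import Pool.Agent.Helper893.Plichko

open scoped ENNReal BigOperators Topology
open Filter

namespace Pool.Agent.Helper893.V

/-- A linear subspace `N` of the dual of `X` is norming: there is `c > 0` with
`sup {|f x| : f ∈ N, ‖f‖ ≤ 1} ≥ c ‖x‖` for all `x`. -/
def IsNorming {X : Type} [NormedAddCommGroup X] [NormedSpace ℝ X]
    (N : Submodule ℝ (X →L[ℝ] ℝ)) : Prop :=
  ∃ c : ℝ, 0 < c ∧ ∀ x : X, c * ‖x‖ ≤ sSup {r : ℝ | ∃ f ∈ N, ‖f‖ ≤ 1 ∧ r = |f x|}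

/-- Plichko spaces: there are a linearly dense set `S` and a norming subspace `N` of the dual all of
whose members are nonzero at only countably many points of `S`. -/
def IsPlichko (X : Type) [NormedAddCommGroup X] [NormedSpace ℝ X] : Prop :=
  ∃ (S : Set X) (N : Submodule ℝ (X →L[ℝ] ℝ)),
    Dense (Submodule.span ℝ S : Set X) ∧ IsNorming N ∧ ∀ f ∈ N, {s | s ∈ S ∧ f s ≠ 0}.Countable

section Basic

variable {X : Type} [NormedAddCommGroup X] [NormedSpace ℝ X]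

theorem IsNorming.of {N : Submodule ℝ (X →L[ℝ] ℝ)} {c : ℝ} (hc : 0 < c)
    (h : ∀ x : X, ∃ f ∈ N, ‖f‖ ≤ 1 ∧ c * ‖x‖ ≤ |f x|) : IsNorming N := by
  refine ⟨c, hc, fun x => ?_⟩
  obtain ⟨f, hf, hf1, hfx⟩ := h x
  refine hfx.trans (le_csSup ⟨‖x‖, ?_⟩ ⟨f, hf, hf1, rfl⟩)
  rintro _ ⟨g, _, hg, rfl⟩
  calc |g x| = ‖g x‖ := rfl
    _ ≤ ‖g‖ * ‖x‖ := g.le_opNorm x
    _ ≤ 1 * ‖x‖ := mul_le_mul_of_nonneg_right hg (norm_nonneg _)
    _ = ‖x‖ := one_mul _

theorem IsNorming.exists {N : Submodule ℝ (X →L[ℝ] ℝ)} (h : IsNorming N) :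
    ∃ c : ℝ, 0 < c ∧ ∀ x : X, ∃ f ∈ N, ‖f‖ ≤ 1 ∧ c * ‖x‖ ≤ |f x| := by
  obtain ⟨c, hc, h⟩ := h
  refine ⟨c / 2, half_pos hc, fun x => ?_⟩
  by_cases hx : x = 0
  · exact ⟨0, N.zero_mem, by simp, by simp [hx]⟩
  · have hx' : 0 < ‖x‖ := norm_pos_iff.mpr hx
    have h1 : c / 2 * ‖x‖ < sSup {r : ℝ | ∃ f ∈ N, ‖f‖ ≤ 1 ∧ r = |f x|} := by
      refine lt_of_lt_of_le ?_ (h x)
      nlinarith
    have hne : {r : ℝ | ∃ f ∈ N, ‖f‖ ≤ 1 ∧ r = |f x|}.Nonempty :=
      ⟨0, 0, N.zero_mem, by simp, by simp⟩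
    obtain ⟨_, ⟨f, hf, hf1, rfl⟩, h2⟩ := exists_lt_of_lt_csSup hne h1
    exact ⟨f, hf, hf1, h2.le⟩

/-- The Plichko property is invariant under isomorphisms. -/
theorem IsPlichko.of_equiv {Y : Type} [NormedAddCommGroup Y] [NormedSpace ℝ Y] (e : X ≃L[ℝ] Y)
    (h : IsPlichko Y) : IsPlichko X := by
  obtain ⟨S, N, hS, hN, hc⟩ := h
  obtain ⟨c, hc0, hcN⟩ := hN.exists
  let E : Y →L[ℝ] X := e.symm
  let F : X →L[ℝ] Y := e
  let N' : Submodule ℝ (X →L[ℝ] ℝ) :=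
    N.comap ((ContinuousLinearMap.compL ℝ Y X ℝ).flip E : (X →L[ℝ] ℝ) →ₗ[ℝ] (Y →L[ℝ] ℝ))
  have hN' : ∀ f : X →L[ℝ] ℝ, f ∈ N' ↔ f.comp E ∈ N := fun f => Iff.rfl
  have hFE : ∀ y, F (E y) = y := fun y => e.apply_symm_apply y
  have hEF : ∀ x, E (F x) = x := fun x => e.symm_apply_apply x
  refine ⟨E '' S, N', ?_, ?_, ?_⟩
  · have h1 : (Submodule.span ℝ (E '' S) : Set X) = E '' (Submodule.span ℝ S : Set Y) := by
      rw [← ContinuousLinearMap.coe_coe, ← Submodule.map_span, Submodule.map_coe]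
    rw [h1]
    have hsurj : Function.Surjective E := e.symm.surjective
    exact hsurj.denseRange.dense_image E.continuous hS
  · refine IsNorming.of (c := c / ((‖E‖ + 1) * (‖F‖ + 1))) (by positivity) ?_
    intro x
    obtain ⟨f, hf, hf1, hfx⟩ := hcN (F x)
    refine ⟨(‖F‖ + 1)⁻¹ • (f.comp F), ?_, ?_, ?_⟩
    · refine N'.smul_mem _ ?_
      rw [hN']
      have : (f.comp F).comp E = f := by
        ext y
        simp only [ContinuousLinearMap.comp_apply, hFE]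
      rw [this]
      exact hf
    · rw [norm_smul, norm_inv, Real.norm_of_nonneg (by positivity)]
      rw [inv_mul_le_iff₀ (by positivity), mul_one]
      refine (ContinuousLinearMap.opNorm_comp_le _ _).trans ?_
      nlinarith [norm_nonneg F, norm_nonneg f]
    · have h1 : ‖x‖ ≤ (‖E‖ + 1) * ‖F x‖ := by
        have h2 := E.le_opNorm (F x)
        rw [hEF] at h2
        nlinarith [norm_nonneg (F x)]
      rw [smul_apply, smul_eq_mul, abs_mul, abs_inv,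
        abs_of_pos (show (0 : ℝ) < ‖F‖ + 1 by positivity), ContinuousLinearMap.comp_apply]
      rw [div_mul_eq_mul_div, inv_mul_eq_div, mul_comm (‖E‖ + 1), ← div_div]
      rw [div_right_comm]
      refine div_le_div_of_nonneg_right ?_ (by positivity)
      rw [div_le_iff₀ (by positivity)]
      calc c * ‖x‖ ≤ c * ((‖E‖ + 1) * ‖F x‖) := mul_le_mul_of_nonneg_left h1 hc0.le
        _ = (c * ‖F x‖) * (‖E‖ + 1) := by ring
        _ ≤ |f (F x)| * (‖E‖ + 1) := mul_le_mul_of_nonneg_right hfx (by positivity)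
  · intro f hf
    refine ((hc _ ((hN' f).mp hf)).image E).mono ?_
    rintro _ ⟨⟨s, hs, rfl⟩, hne⟩
    exact ⟨s, ⟨hs, hne⟩, rfl⟩

end Basic

/-- The dual of `ℓ∞(N)` is a Plichko space. -/
theorem isPlichko_dual_linf (N : Type) : IsPlichko (Linf N →L[ℝ] ℝ) := by
  classical
  obtain ⟨S, hS1, hS2, hS3⟩ := exists_family N
  have hgen : ∀ μ : S, ∃ D : Set (DL N), (D ⊆ LL μ.1) ∧
      LL μ.1 ≤ (Submodule.span ℝ D).topologicalClosure ∧
      ∀ φ : DL N →L[ℝ] ℝ, {d | d ∈ D ∧ φ d ≠ 0}.Countable := fun μ =>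
    exists_gen_LL μ.1 (hS1 μ.1 μ.2)
  choose D hD1 hD2 hD3 using hgen
  let 𝒩 : Submodule ℝ (DL N →L[ℝ] ℝ) :=
    { carrier := {φ | {μ : S | ∃ y ∈ LL μ.1, φ y ≠ 0}.Countable}
      zero_mem' := by
        have : {μ : S | ∃ y ∈ LL μ.1, (0 : DL N →L[ℝ] ℝ) y ≠ 0} = ∅ := by
          ext μ
          simp
        rw [Set.mem_ofPred_eq, this]
        exact Set.countable_empty
      add_mem' := by
        intro φ ψ hφ hψ
        refine (Set.Countable.union hφ hψ).mono ?_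
        rintro μ ⟨y, hy, hne⟩
        by_contra hcon
        rw [Set.mem_union, not_or] at hcon
        apply hne
        have h1 : φ y = 0 := by
          by_contra h
          exact hcon.1 ⟨y, hy, h⟩
        have h2 : ψ y = 0 := by
          by_contra h
          exact hcon.2 ⟨y, hy, h⟩
        rw [add_apply, h1, h2, add_zero]
      smul_mem' := by
        intro c φ hφ
        refine Set.Countable.mono ?_ hφ
        rintro μ ⟨y, hy, hne⟩
        refine ⟨y, hy, fun h => hne ?_⟩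
        rw [smul_apply, h, smul_zero] }
  have h𝒩 : ∀ φ, φ ∈ 𝒩 ↔ {μ : S | ∃ y ∈ LL μ.1, φ y ≠ 0}.Countable := fun φ => Iff.rfl
  refine ⟨⋃ μ, D μ, 𝒩, ?_, ?_, ?_⟩
  · rw [Submodule.dense_iff_topologicalClosure_eq_top, eq_top_iff, ← hS3]
    refine Submodule.topologicalClosure_minimal _ ?_ (Submodule.isClosed_topologicalClosure _)
    refine iSup_le fun μ => (hD2 μ).trans ?_
    exact Submodule.topologicalClosure_mono (Submodule.span_mono (Set.subset_iUnion D μ))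
  · refine IsNorming.of (c := 1 / 2) (by norm_num) ?_
    intro x
    by_cases hx : x = 0
    · exact ⟨0, 𝒩.zero_mem, by simp, by simp [hx]⟩
    have hx' : 0 < ‖x‖ := norm_pos_iff.mpr hx
    have hxcl : x ∈ closure ((⨆ μ : S, LL (μ : DL N) : Submodule ℝ (DL N)) : Set (DL N)) := by
      rw [← Submodule.topologicalClosure_coe, hS3]
      trivial
    obtain ⟨y, hy, hxy⟩ := Metric.mem_closure_iff.mp hxcl (‖x‖ / 8) (by positivity)
    rw [dist_eq_norm] at hxy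
    have hyn : ‖x‖ - ‖x‖ / 8 < ‖y‖ := by
      have := norm_sub_norm_le x y
      linarith
    obtain ⟨a, ha1, ha2⟩ := ContinuousLinearMap.exists_lt_apply_of_lt_opNorm y hyn
    obtain ⟨R0, hR0⟩ := Submodule.mem_iSup_iff_exists_finset.mp hy
    let R : Finset (DL N) := R0.image Subtype.val
    obtain ⟨φ, hφ1, hφ2, hφ3⟩ := exists_cut S hS1 hS2 R (by
      intro μ hμ
      obtain ⟨μ', _, rfl⟩ := Finset.mem_image.mp (Finset.mem_coe.mp hμ)
      exact μ'.2) a ha1.le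
    refine ⟨φ, ?_, hφ1, ?_⟩
    · rw [h𝒩]
      refine R0.countable_toSet.mono ?_
      rintro μ ⟨z, hz, hne⟩
      by_contra hcon
      refine hne (hφ3 μ.1 μ.2 ?_ z hz)
      intro h
      obtain ⟨μ', h1, h2⟩ := Finset.mem_image.mp h
      have : μ' = μ := Subtype.ext h2
      subst this
      exact hcon h1
    · have h1 : φ y = y a := by
        let ev : DL N →L[ℝ] ℝ := ContinuousLinearMap.apply ℝ ℝ a
        have h2 : (⨆ μ ∈ R0, LL (μ : DL N)) ≤
            LinearMap.ker ((φ - ev : DL N →L[ℝ] ℝ) : DL N →ₗ[ℝ] ℝ) := by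
          refine iSup₂_le fun μ hμ z hz => ?_
          rw [LinearMap.mem_ker]
          change φ z - z a = 0
          rw [hφ2 μ.1 (Finset.mem_image_of_mem _ hμ) z hz, sub_self]
        have h3 := h2 hR0
        rw [LinearMap.mem_ker] at h3
        change φ y - y a = 0 at h3
        linarith
      have h2 : ‖φ (x - y)‖ ≤ ‖x‖ / 8 := by
        calc ‖φ (x - y)‖ ≤ ‖φ‖ * ‖x - y‖ := φ.le_opNorm _
          _ ≤ 1 * ‖x - y‖ := mul_le_mul_of_nonneg_right hφ1 (norm_nonneg _)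
          _ ≤ ‖x‖ / 8 := by rw [one_mul]; exact hxy.le
      rw [map_sub, Real.norm_eq_abs, h1] at h2
      rw [Real.norm_eq_abs] at ha2
      have h3 : |y a| ≤ |φ x| + |φ x - y a| := by
        have := abs_sub_abs_le_abs_sub (y a) (φ x)
        rw [abs_sub_comm] at this
        linarith
      linarith
  · intro φ hφ
    have h1 : (⋃ μ ∈ {μ : S | ∃ y ∈ LL μ.1, φ y ≠ 0}, {d | d ∈ D μ ∧ φ d ≠ 0}).Countable :=
      Set.Countable.biUnion ((h𝒩 φ).mp hφ) fun μ _ => hD3 μ φ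
    refine h1.mono ?_
    rintro d ⟨hd, hne⟩
    obtain ⟨μ, hμ⟩ := Set.mem_iUnion.mp hd
    exact Set.mem_biUnion (show μ ∈ {μ : S | ∃ y ∈ LL μ.1, φ y ≠ 0} from ⟨d, hD1 μ hμ, hne⟩)
      ⟨hμ, hne⟩

/-- If the dual of `W` is isomorphic to `ℓ∞(N)`, then the bidual of `W` is Plichko. -/
theorem isPlichko_bidual {W : Type} [NormedAddCommGroup W] [NormedSpace ℝ W] {N : Type}
    (e : (W →L[ℝ] ℝ) ≃L[ℝ] Linf N) : IsPlichko ((W →L[ℝ] ℝ) →L[ℝ] ℝ) := by
  let e' : ((W →L[ℝ] ℝ) →L[ℝ] ℝ) ≃L[ℝ] (Linf N →L[ℝ] ℝ) :=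
    e.arrowCongr (ContinuousLinearEquiv.refl ℝ ℝ)
  exact IsPlichko.of_equiv e' (isPlichko_dual_linf N)

/-- A Plichko space has enough projections with separable range. -/
theorem IsPlichko.exists_op {X : Type} [NormedAddCommGroup X] [NormedSpace ℝ X] [CompleteSpace X]
    (h : IsPlichko X) (C : Set X) (hC : C.Countable) :
    ∃ R : X →L[ℝ] X, TopologicalSpace.IsSeparable (Set.range R) ∧ ∀ x ∈ C, R x = x := by
  obtain ⟨S, N, hS, hN, hcount⟩ := h
  obtain ⟨c, hc0, hcN⟩ := hN.exists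
  obtain ⟨R, K, A, hA, hRb, hRA, hRid, hSA⟩ := Plichko.exists_proj (𝕜 := ℝ) S hS (N : Set _) c hc0
    (fun x _ => hcN x) hcount C hC
  refine ⟨R.mkContinuous K hRb, ?_, fun x hx => hRid x (hSA hx)⟩
  have h1 : TopologicalSpace.IsSeparable (Plichko.CS ℝ A : Set X) := by
    rw [Plichko.CS, Submodule.topologicalClosure_coe]
    exact (hA.isSeparable.span (R := ℝ)).closure
  refine h1.mono ?_
  rintro _ ⟨b, rfl⟩
  exact hRA b

end Pool.Agent.Helper893.V
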