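import Mathlib
import Pool.Agent.Helper893.V.Walsh

open scoped ENNReal BigOperators Topology
open Filter Finset

namespace Pool.Agent.Helper893.V

/-- The Rademacher coefficient functionals. -/
noncomputable def phi (ξ : ℕ) : EE →L[ℝ] ℝ :=
  ∑ s ∈ (range (ξ + 1)).powerset, wal {ξ} s • cE (ξ + 1) s

theorem phi_apply (ξ : ℕ) (x : EE) :
    phi ξ x = ∑ s ∈ (range (ξ + 1)).powerset, wal {ξ} s * cE (ξ + 1) s x := by
  unfold phi
  simp only [FunLike.coe_sum, Finset.sum_apply, FunLike.coe_smul, Pi.smul_apply, smul_eq_mul]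

theorem norm_phi_le (ξ : ℕ) : ‖phi ξ‖ ≤ 1 := by
  apply ContinuousLinearMap.opNorm_le_bound _ zero_le_one
  intro x
  rw [phi_apply, one_mul]
  calc _ ≤ ∑ s ∈ (range (ξ + 1)).powerset, ‖wal {ξ} s * cE (ξ + 1) s x‖ := norm_sum_le _ _
    _ = ∑ s ∈ (range (ξ + 1)).powerset, |cE (ξ + 1) s x| := by
      apply Finset.sum_congr rfl
      intro s _
      rw [Real.norm_eq_abs, abs_mul, abs_wal, one_mul]
    _ ≤ ‖x‖ := sum_cE_le _ x

theorem phi_wE (ξ : ℕ) (S : Finset ℕ) : phi ξ (wE S) = if S = {ξ} then 1 else 0 := by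
  have hξ : ({ξ} : Finset ℕ) ⊆ range (ξ + 1) := by
    intro k hk
    rw [Finset.mem_singleton] at hk
    rw [Finset.mem_range]
    omega
  rw [phi_apply]
  by_cases hS : S ⊆ range (ξ + 1)
  · have h1 : ∀ s ∈ (range (ξ + 1)).powerset, wal {ξ} s * cE (ξ + 1) s (wE S) =
        (2 : ℝ)⁻¹ ^ (ξ + 1) * (wal S s * wal {ξ} s) := by
      intro s hs
      rw [cE_apply, wE_apply_apply, if_pos ⟨hS, Finset.mem_powerset.1 hs⟩]
      ring
    rw [Finset.sum_congr rfl h1, ← Finset.mul_sum, sum_wal_mul (range (ξ + 1)) S {ξ} hS hξ,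
      Finset.card_range]
    split_ifs with h
    · rw [← mul_pow]
      norm_num
    · rw [mul_zero]
  · rw [if_neg (fun h : S = {ξ} => hS (by rw [h]; exact hξ))]
    apply Finset.sum_eq_zero
    intro s _
    rw [cE_apply, wE_apply_apply, if_neg (fun h => hS h.1), mul_zero]

theorem phi_FF {A : Set ℕ} {ξ : ℕ} (hξ : ξ ∉ A) : ∀ x ∈ FF A, phi ξ x = 0 := by
  have h1 : FF A ≤ LinearMap.ker (phi ξ).toLinearMap := by
    apply Submodule.topologicalClosure_minimal
    · rw [Submodule.span_le]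
      rintro _ ⟨S, hS, rfl⟩
      show phi ξ (wE S) = 0
      rw [phi_wE, if_neg]
      rintro rfl
      exact hξ (hS (by simp))
    · exact (phi ξ).isClosed_ker
  intro x hx
  exact h1 hx

theorem norm_sum_rad (K : Finset ℕ) (θ : ℕ → ℝ) (hθ : ∀ γ, |θ γ| = 1) :
    ‖∑ γ ∈ K, θ γ • wE {γ}‖ ^ 2 ≤ K.card := by
  have hle : ‖∑ γ ∈ K, θ γ • wE {γ}‖ ≤ Real.sqrt K.card := by
    apply lp.norm_le_of_forall_le (Real.sqrt_nonneg _)
    intro n
    let K' := K.filter (· ∈ range n)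
    have h1 : (∑ γ ∈ K, θ γ • wE {γ} : EE) n =
        fin n (fun T => (2 : ℝ)⁻¹ ^ n * ∑ γ ∈ K', θ γ * wal {γ} T) := by
      apply lp.ext
      funext T
      have h2 : ((∑ γ ∈ K, θ γ • wE {γ} : EE) n) T = ∑ γ ∈ K, θ γ * (wE {γ} n) T := by
        rw [lp.coeFn_sum, Finset.sum_apply, lp.coeFn_sum, Finset.sum_apply]
        rfl
      rw [h2, fin_apply]
      split_ifs with hT
      · have h3 : ∀ γ ∈ K, θ γ * (wE {γ} n) T =
            if γ ∈ range n then (2 : ℝ)⁻¹ ^ n * (θ γ * wal {γ} T) else 0 := by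
          intro γ _
          rw [wE_apply_apply]
          by_cases h3 : γ ∈ range n
          · rw [if_pos ⟨Finset.singleton_subset_iff.2 h3, hT⟩, if_pos h3]; ring
          · rw [if_neg (fun h => h3 (Finset.singleton_subset_iff.1 h.1)), if_neg h3, mul_zero]
        rw [Finset.sum_congr rfl h3, ← Finset.sum_filter, Finset.mul_sum]
      · apply Finset.sum_eq_zero
        intro γ _
        rw [wE_apply_apply, if_neg (fun h => hT h.2), mul_zero]
    rw [h1]
    refine (norm_fin_le _ _).trans ?_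
    apply Real.le_sqrt_of_sq_le
    have h4 := sq_sum_le_card_mul_sum_sq (s := (range n).powerset)
      (f := fun T => |(2 : ℝ)⁻¹ ^ n * ∑ γ ∈ K', θ γ * wal {γ} T|)
    refine h4.trans ?_
    have h5 : ∀ T ∈ (range n).powerset, |(2 : ℝ)⁻¹ ^ n * ∑ γ ∈ K', θ γ * wal {γ} T| ^ 2 =
        ((2 : ℝ)⁻¹ ^ n) ^ 2 * ∑ γ ∈ K', ∑ γ' ∈ K', (θ γ * θ γ') * (wal {γ} T * wal {γ'} T) := by
      intro T _
      rw [sq_abs, mul_pow, sq (∑ γ ∈ K', θ γ * wal {γ} T), Finset.sum_mul_sum]
      congr 1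
      apply Finset.sum_congr rfl
      intro γ _
      apply Finset.sum_congr rfl
      intro γ' _
      ring
    have h6 : ∑ T ∈ (range n).powerset, ∑ γ ∈ K', ∑ γ' ∈ K',
        (θ γ * θ γ') * (wal {γ} T * wal {γ'} T) = (2 : ℝ) ^ n * K'.card := by
      rw [Finset.sum_comm]
      have h7 : ∀ γ ∈ K', ∑ T ∈ (range n).powerset, ∑ γ' ∈ K',
          (θ γ * θ γ') * (wal {γ} T * wal {γ'} T) = (2 : ℝ) ^ n := by
        intro γ hγ
        rw [Finset.sum_comm]
        have h8 : ∀ γ' ∈ K', ∑ T ∈ (range n).powerset,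
            (θ γ * θ γ') * (wal {γ} T * wal {γ'} T) = if γ = γ' then (2 : ℝ) ^ n else 0 := by
          intro γ' hγ'
          rw [← Finset.mul_sum, sum_wal_mul (range n) {γ} {γ'}
            (by simpa using (Finset.mem_filter.1 hγ).2)
            (by simpa using (Finset.mem_filter.1 hγ').2), Finset.card_range]
          by_cases h : γ = γ'
          · subst h
            rw [if_pos rfl, if_pos rfl, ← abs_mul_abs_self, hθ]
            ring
          · rw [if_neg (fun h' => h (Finset.singleton_injective h')), if_neg h, mul_zero]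
        rw [Finset.sum_congr rfl h8, Finset.sum_ite_eq, if_pos hγ]
      rw [Finset.sum_congr rfl h7, Finset.sum_const, nsmul_eq_mul, mul_comm]
    rw [Finset.sum_congr rfl h5, ← Finset.mul_sum, h6, Finset.card_powerset, Finset.card_range]
    push_cast
    have h9 : (2 : ℝ) ^ n * (((2 : ℝ)⁻¹ ^ n) ^ 2 * ((2 : ℝ) ^ n * (K'.card : ℝ))) = K'.card := by
      have : (2 : ℝ) ^ n * (2 : ℝ)⁻¹ ^ n = 1 := by
        rw [← mul_pow]; norm_num
      calc _ = ((2 : ℝ) ^ n * (2 : ℝ)⁻¹ ^ n) ^ 2 * (K'.card : ℝ) := by ring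
        _ = _ := by rw [this]; ring
    rw [h9]
    exact_mod_cast Finset.card_filter_le _ _
  calc _ ≤ (Real.sqrt K.card) ^ 2 := by gcongr
    _ = K.card := Real.sq_sqrt (by positivity)

end Pool.Agent.Helper893.V
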