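import Mathlib
import Pool.Agent.Helper893.V.Embed
import Pool.Agent.Helper893.V.Rad
import Pool.Agent.Helper893.V.Pel
import Pool.Agent.Helper893.V.Ker
import Pool.Agent.Helper893.V.PlichkoDef

open scoped ENNReal BigOperators Topology
open Filter TopologicalSpace

namespace Pool.Agent.Helper893.V

/-- The index set. -/
abbrev JJ : Type := ℕ ⊕ (ℕ → Bool)

/-- Codes of initial segments. -/
def code (x : ℕ → Bool) (n : ℕ) : ℕ := Encodable.encode ((List.range n).map x)

theorem code_inj {x y : ℕ → Bool} {n m : ℕ} (h : code x n = code y m) :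
    n = m ∧ ∀ k < n, x k = y k := by
  unfold code at h
  have h1 := Encodable.encode_injective h
  have h2 : n = m := by
    have := congrArg List.length h1
    simpa using this
  subst h2
  refine ⟨rfl, fun k hk => ?_⟩
  have h3 := congrArg (fun l => l[k]?) h1
  simpa [hk] using h3

/-- The family of sets. -/
def SJ : JJ → Set ℕ
  | Sum.inl n => {k | k < n}
  | Sum.inr x => Set.range (code x)

/-- The model space. -/
noncomputable abbrev FJ (j : JJ) : Submodule ℝ EE := FF (SJ j)

theorem free_SJ (x : ℕ → Bool) (G : Finset JJ) (hG : Sum.inr x ∉ G) (K : Finset ℕ) :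
    ∃ γ ∈ SJ (Sum.inr x), γ ∉ K ∧ ∀ j ∈ G, γ ∉ SJ j := by
  have hinj : Function.Injective (code x) := fun n m h => (code_inj h).1
  have htend : Tendsto (code x) atTop atTop := hinj.nat_tendsto_atTop
  have h1 : ∀ᶠ n in atTop, code x n ∉ K := by
    filter_upwards [htend.eventually_ge_atTop (K.sup id + 1)] with n hn hK
    have : code x n ≤ K.sup id := Finset.le_sup (f := id) hK
    omega
  have h2 : ∀ᶠ n in atTop, ∀ j ∈ G, code x n ∉ SJ j := by
    rw [Filter.eventually_all_finset]
    intro j hj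
    cases j with
    | inl m =>
      filter_upwards [htend.eventually_ge_atTop m] with n hn h
      have : code x n < m := h
      omega
    | inr y =>
      have hne : x ≠ y := by
        rintro rfl
        exact hG hj
      obtain ⟨k, hk⟩ : ∃ k, x k ≠ y k := by
        by_contra hcon
        push Not at hcon
        exact hne (funext hcon)
      filter_upwards [eventually_gt_atTop k] with n hn h
      obtain ⟨m, hm⟩ := h
      exact hk ((code_inj hm.symm).2 k hn)
  obtain ⟨n, hn1, hn2⟩ := (h1.and h2).exists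
  exact ⟨code x n, ⟨n, rfl⟩, hn1, hn2⟩

/-- The space of families supported on the countable part. -/
noncomputable def WW : Submodule ℝ (kerSpace FJ) :=
  ⨅ x : ℕ → Bool, LinearMap.ker
    ((lp.evalCLM ℝ (fun _ : JJ => EE) 1 (Sum.inr x)).toLinearMap.comp (kerSpace FJ).subtype)

theorem mem_WW {b : kerSpace FJ} :
    b ∈ WW ↔ ∀ x, (b : lp (fun _ : JJ => EE) 1) (Sum.inr x) = 0 := by
  unfold WW
  rw [Submodule.mem_iInf]
  rfl

theorem isSeparable_WW : IsSeparable (WW : Set (kerSpace FJ)) := by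
  classical
  apply isSeparable_of_image (f := ((↑) : kerSpace FJ → lp (fun _ : JJ => EE) 1))
    Topology.IsInducing.subtypeVal
  let Q : Submodule ℝ (lp (fun _ : JJ => EE) 1) := (Submodule.span ℝ (Set.range
    (fun p : ℕ × Finset ℕ => lp.singleContinuousLinearMap ℝ (fun _ : JJ => EE) 1
      (Sum.inl p.1) (wE p.2)))).topologicalClosure
  have hQs : IsSeparable (Q : Set (lp (fun _ : JJ => EE) 1)) := by
    have h1 : IsSeparable (Set.range
      (fun p : ℕ × Finset ℕ => lp.singleContinuousLinearMap ℝ (fun _ : JJ => EE) 1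
      (Sum.inl p.1) (wE p.2))) := (Set.countable_range _).isSeparable
    exact (h1.span (R := ℝ)).closure
  have hQc : IsClosed (Q : Set (lp (fun _ : JJ => EE) 1)) :=
    Submodule.isClosed_topologicalClosure _
  refine hQs.mono ?_
  rintro _ ⟨b, hb, rfl⟩
  have hbW := mem_WW.1 hb
  have hbm := mem_kerSpace.1 b.2
  have hs : HasSum (fun j => lp.single (E := fun _ : JJ => EE) 1 j
    ((b : lp (fun _ : JJ => EE) 1) j)) (b : lp (fun _ : JJ => EE) 1) :=
    lp.hasSum_single (by simp) _
  have hterm : ∀ j, lp.single (E := fun _ : JJ => EE) 1 j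
    ((b : lp (fun _ : JJ => EE) 1) j) ∈ Q := by
    intro j
    cases j with
    | inl n =>
      have h1 : FF (SJ (Sum.inl n)) ≤ Q.comap
          (lp.singleContinuousLinearMap ℝ (fun _ : JJ => EE) 1 (Sum.inl n)).toLinearMap := by
        apply Submodule.topologicalClosure_minimal
        · rw [Submodule.span_le]
          rintro _ ⟨S, _, rfl⟩
          exact Submodule.le_topologicalClosure _ (Submodule.subset_span ⟨(n, S), rfl⟩)
        · exact hQc.preimage
            (lp.singleContinuousLinearMap ℝ (fun _ : JJ => EE) 1 (Sum.inl n)).continuous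
      exact h1 (hbm.2 _)
    | inr x =>
      have h2 : lp.single (E := fun _ : JJ => EE) 1 (Sum.inr x)
          ((b : lp (fun _ : JJ => EE) 1) (Sum.inr x)) = 0 := by
        rw [hbW x]
        exact map_zero (lp.singleContinuousLinearMap ℝ (fun _ : JJ => EE) 1 (Sum.inr x))
      rw [h2]
      exact Q.zero_mem
  exact hQc.mem_of_tendsto hs (Filter.Eventually.of_forall fun s =>
    Submodule.sum_mem _ (fun j _ => hterm j))

theorem not_op (P : kerSpace FJ →L[ℝ] kerSpace FJ) (hW : ∀ b ∈ WW, P b = b)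
    (hs : IsSeparable (Set.range P)) : False := by
  classical
  obtain ⟨c, hc, hPc⟩ := hs
  have hU : (⋃ y ∈ c, {j : JJ | ((y : kerSpace FJ) : lp (fun _ : JJ => EE) 1) j ≠ 0}).Countable := by
    apply hc.biUnion
    intro y _
    have h1 : Summable (fun j => ‖((y : kerSpace FJ) : lp (fun _ : JJ => EE) 1) j‖) := by
      have := (lp.memℓp ((y : kerSpace FJ) : lp (fun _ : JJ => EE) 1)).summable (by simp)
      simpa using this
    refine h1.countable_support.mono ?_
    intro j hj
    simpa using hj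
  have hx : ∃ x : ℕ → Bool, Sum.inr x ∉
      (⋃ y ∈ c, {j : JJ | ((y : kerSpace FJ) : lp (fun _ : JJ => EE) 1) j ≠ 0}) := by
    by_contra hcon
    push Not at hcon
    have h1 : (Set.univ : Set (ℕ → Bool)).Countable := by
      have := hU.preimage (f := (Sum.inr : (ℕ → Bool) → JJ)) Sum.inr_injective
      refine this.mono ?_
      intro x _
      exact hcon x
    have h2 : Uncountable (ℕ → Bool) := by
      rw [← Cardinal.aleph0_lt_mk_iff]
      simp [Cardinal.aleph0_lt_continuum]
    exact Set.not_countable_univ h1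
  obtain ⟨x, hx⟩ := hx
  have hzero : ∀ y ∈ c, ((y : kerSpace FJ) : lp (fun _ : JJ => EE) 1) (Sum.inr x) = 0 := by
    intro y hy
    by_contra h
    exact hx (Set.mem_biUnion hy h)
  have hzero' : ∀ b, ((P b : kerSpace FJ) : lp (fun _ : JJ => EE) 1) (Sum.inr x) = 0 := by
    intro b
    have h1 : P b ∈ closure c := hPc ⟨b, rfl⟩
    have h2 : IsClosed {y : kerSpace FJ |
        ((y : kerSpace FJ) : lp (fun _ : JJ => EE) 1) (Sum.inr x) = 0} := by
      apply isClosed_eq _ continuous_const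
      exact (lp.evalCLM ℝ (fun _ : JJ => EE) 1 (Sum.inr x)).continuous.comp continuous_subtype_val
    exact (closure_minimal hzero h2) h1
  refine no_operator (𝕜 := ℝ) FJ SJ (fun γ => wE {γ}) phi norm_phi_le ?_ ?_ ?_ 1 ?_
    (Set.range Sum.inl) (Sum.inr x) ?_ ?_ (free_SJ x) P ?_ hzero'
  · intro γ
    rw [phi_wE, if_pos rfl]
  · intro j γ hγ
    exact wE_mem_FF (by simpa using hγ)
  · intro j γ hγ
    exact phi_FF hγ
  · intro K θ hθ
    rw [one_mul]
    exact norm_sum_rad K θ hθ
  · rintro ⟨n, hn⟩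
    exact Sum.inl_ne_inr hn
  · intro K _
    refine ⟨Sum.inl (K.sup id + 1), ⟨_, rfl⟩, ?_⟩
    intro k hk
    have : k ≤ K.sup id := Finset.le_sup (f := id) hk
    show k < K.sup id + 1
    omega
  · intro b hb
    apply hW
    rw [mem_WW]
    intro y
    apply hb
    rintro ⟨n, hn⟩
    exact Sum.inl_ne_inr hn

theorem exists_embed : ∃ (jm : (kerSpace FJ →L[ℝ] ℝ) →L[ℝ] Linf (ℕ × JJ × Finset ℕ))
      (ψ : Linf (ℕ × JJ × Finset ℕ) →L[ℝ] (kerSpace FJ →L[ℝ] ℝ)), ∀ x, ψ (jm x) = x := by
  classical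
  exact embed FJ (fun m => Sum.inl m) (fun m => (Finset.range m).powerset) cE
    sum_cE_le (fun j m s => hh (SJ j) m s) (fun j m s => norm_hh_le _ _ _)
    (fun j m s => hh_mem (fun k hk _ => hk) s) (fun j m s => hh_mem (fun k _ hk => hk) s)
    DE norm_DE_le (fun m j => sum_hh (SJ j) m) (fun j => tendsto_DE (SJ j))


/-- The bidual of `X × ℓ¹(ℕ × M)` is Plichko as soon as `X*` is complemented in `ℓ∞(M)`. -/
theorem isPlichko_bidual_prod {X : Type} [NormedAddCommGroup X] [NormedSpace ℝ X] {M : Type}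
    (j : (X →L[ℝ] ℝ) →L[ℝ] Linf M) (ψ : Linf M →L[ℝ] (X →L[ℝ] ℝ)) (hψ : ∀ x, ψ (j x) = x) :
    IsPlichko (((X × lp (fun _ : ℕ × M => ℝ) 1) →L[ℝ] ℝ) →L[ℝ] ℝ) := by
  obtain ⟨e⟩ := pel j ψ hψ
  exact isPlichko_bidual e

theorem not_isPlichko : ¬ IsPlichko
    (kerSpace FJ × lp (fun _ : ℕ × (ℕ × JJ × Finset ℕ) => ℝ) 1) := by
  intro h
  have hc : CompleteSpace (kerSpace FJ) :=
    (isClosed_kerSpace (fun j => isClosed_FF (SJ j))).completeSpace_coe
  obtain ⟨C, hCc, hWC⟩ := isSeparable_WW
  let inl : kerSpace FJ →L[ℝ] kerSpace FJ × lp (fun _ : ℕ × (ℕ × JJ × Finset ℕ) => ℝ) 1 :=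
    ContinuousLinearMap.inl ℝ _ _
  obtain ⟨R, hRs, hR⟩ := h.exists_op (inl '' C) (hCc.image _)
  let Q : kerSpace FJ →L[ℝ] kerSpace FJ :=
    ((ContinuousLinearMap.fst ℝ (kerSpace FJ)
      (lp (fun _ : ℕ × (ℕ × JJ × Finset ℕ) => ℝ) 1)).comp R).comp inl
  have hQ : ∀ b, Q b = (R (b, 0)).1 := fun b => rfl
  apply not_op Q
  · intro b hb
    have hcl : IsClosed {b : kerSpace FJ | Q b = b} :=
      isClosed_eq Q.continuous continuous_id
    have hsub : C ⊆ {b : kerSpace FJ | Q b = b} := by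
      intro b hb
      have h2 : R (b, 0) = (b, 0) := hR _ ⟨b, hb, rfl⟩
      change Q b = b
      rw [hQ, h2]
    exact closure_minimal hsub hcl (hWC hb)
  · refine (hRs.image continuous_fst).mono ?_
    rintro _ ⟨b, rfl⟩
    exact ⟨R (b, 0), ⟨(b, 0), rfl⟩, rfl⟩

end Pool.Agent.Helper893.V
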